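import Mathlib

/-!
# Commuting elements of `SL_2` over a field of characteristic two

All statements are elementary facts on `2 x 2` matrices of determinant one.
-/

namespace Pool.Agent.H91.SL2

open Matrix

variable {F : Type*} [Field F]

theorem ext2 {x y : SpecialLinearGroup (Fin 2) F} (h00 : x 0 0 = y 0 0) (h01 : x 0 1 = y 0 1) (h10 : x 1 0 = y 1 0)
    (h11 : x 1 1 = y 1 1) : x = y := by
  ext i j
  fin_cases i <;> fin_cases j <;> simp_all

theorem det2 (x : SpecialLinearGroup (Fin 2) F) : x 0 0 * x 1 1 - x 0 1 * x 1 0 = 1 := by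
  have := x.det_coe
  rwa [det_fin_two] at this

theorem mul00 (x y : SpecialLinearGroup (Fin 2) F) : (x * y) 0 0 = x 0 0 * y 0 0 + x 0 1 * y 1 0 := by
  simp [Matrix.mul_apply, Fin.sum_univ_two]

theorem mul01 (x y : SpecialLinearGroup (Fin 2) F) : (x * y) 0 1 = x 0 0 * y 0 1 + x 0 1 * y 1 1 := by
  simp [Matrix.mul_apply, Fin.sum_univ_two]

theorem mul10 (x y : SpecialLinearGroup (Fin 2) F) : (x * y) 1 0 = x 1 0 * y 0 0 + x 1 1 * y 1 0 := by
  simp [Matrix.mul_apply, Fin.sum_univ_two]

theorem mul11 (x y : SpecialLinearGroup (Fin 2) F) : (x * y) 1 1 = x 1 0 * y 0 1 + x 1 1 * y 1 1 := by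
  simp [Matrix.mul_apply, Fin.sum_univ_two]

/-- Commuting is the vanishing of the cross product of the trace-free parts. -/
theorem commute_iff (x y : SpecialLinearGroup (Fin 2) F) : Commute x y ↔
    x 0 1 * y 1 0 = y 0 1 * x 1 0 ∧ x 0 1 * (y 1 1 - y 0 0) = y 0 1 * (x 1 1 - x 0 0) ∧
      x 1 0 * (y 1 1 - y 0 0) = y 1 0 * (x 1 1 - x 0 0) := by
  constructor
  · intro h
    have h' : x * y = y * x := h
    have a := congrArg (fun z : SpecialLinearGroup (Fin 2) F => z 0 0) h'
    have b := congrArg (fun z : SpecialLinearGroup (Fin 2) F => z 0 1) h'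
    have c := congrArg (fun z : SpecialLinearGroup (Fin 2) F => z 1 0) h'
    simp only [mul00, mul01, mul10] at a b c
    refine ⟨by linear_combination a, by linear_combination b, by linear_combination -c⟩
  · rintro ⟨a, b, c⟩
    show x * y = y * x
    apply ext2
    · rw [mul00, mul00]; linear_combination a
    · rw [mul01, mul01]; linear_combination b
    · rw [mul10, mul10]; linear_combination -c
    · rw [mul11, mul11]; linear_combination -a

section Char2

variable [CharP F 2]

theorem two_zero : (2 : F) = 0 := CharP.cast_eq_zero F 2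

theorem sq_inj {a b : F} (h : a ^ 2 = b ^ 2) : a = b := by
  have : (a - b) ^ 2 = 0 := by
    linear_combination h + (b ^ 2 - a * b) * two_zero (F := F)
  exact sub_eq_zero.mp (pow_eq_zero_iff (two_ne_zero) |>.mp this)

/-- An element different from one is not scalar. -/
theorem nonscalar {x : SpecialLinearGroup (Fin 2) F} (hx : x ≠ 1) : x 0 1 ≠ 0 ∨ x 1 0 ≠ 0 ∨ x 1 1 - x 0 0 ≠ 0 := by
  by_contra hcon
  push Not at hcon
  obtain ⟨h1, h2, h3⟩ := hcon
  apply hx
  have hd := det2 x
  have h4 : x 1 1 = x 0 0 := sub_eq_zero.mp h3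
  rw [h1, h4] at hd
  have h5 : x 0 0 = 1 := by
    apply sq_inj
    linear_combination hd
  apply ext2 <;> simp [h1, h2, h4, h5]

/-- Commuting is transitive away from one. -/
theorem commute_trans {x y z : SpecialLinearGroup (Fin 2) F} (hy : y ≠ 1) (h1 : Commute x y) (h2 : Commute y z) :
    Commute x z := by
  rw [commute_iff] at *
  obtain ⟨a1, a2, a3⟩ := h1
  obtain ⟨b1, b2, b3⟩ := h2
  set p := x 0 1
  set q := x 1 0
  set r := x 1 1 - x 0 0
  set u := z 0 1
  set v := z 1 0
  set w := z 1 1 - z 0 0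
  rcases nonscalar hy with h | h | h
  · refine ⟨?_, ?_, ?_⟩ <;> apply mul_left_cancel₀ h
    · linear_combination p * b1 + u * a1
    · linear_combination p * b2 + u * a2
    · linear_combination -w * a1 + p * b3 + v * a2
  · refine ⟨?_, ?_, ?_⟩ <;> apply mul_left_cancel₀ h
    · linear_combination v * a1 + q * b1
    · linear_combination w * a1 + q * b2 + u * a3
    · linear_combination q * b3 + v * a3
  · refine ⟨?_, ?_, ?_⟩ <;> apply mul_left_cancel₀ h
    · linear_combination v * a2 + r * b1 - u * a3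
    · linear_combination w * a2 + r * b2
    · linear_combination w * a3 + r * b3

/-- The trace. -/
def tr (x : SpecialLinearGroup (Fin 2) F) : F := x 0 0 + x 1 1

theorem inv00 (x : SpecialLinearGroup (Fin 2) F) : (x⁻¹) 0 0 = x 1 1 := by
  simp [Matrix.adjugate_fin_two]

theorem inv01 (x : SpecialLinearGroup (Fin 2) F) : (x⁻¹) 0 1 = - x 0 1 := by
  simp [Matrix.adjugate_fin_two]

theorem inv10 (x : SpecialLinearGroup (Fin 2) F) : (x⁻¹) 1 0 = - x 1 0 := by
  simp [Matrix.adjugate_fin_two]

theorem inv11 (x : SpecialLinearGroup (Fin 2) F) : (x⁻¹) 1 1 = x 0 0 := by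
  simp [Matrix.adjugate_fin_two]

theorem tr_conj (g x : SpecialLinearGroup (Fin 2) F) : tr (g * x * g⁻¹) = tr x := by
  have hd := det2 g
  unfold tr
  rw [mul00, mul11, mul00, mul01, mul10, mul11, inv00, inv01, inv10, inv11]
  linear_combination (x 0 0 + x 1 1) * hd

/-- The square is one iff the trace vanishes or the element is one. -/
theorem sq_eq_one_iff (x : SpecialLinearGroup (Fin 2) F) : x * x = 1 ↔ tr x = 0 := by
  have hd := det2 x
  constructor
  · intro h
    by_contra htr
    have h01 := congrArg (fun z : SpecialLinearGroup (Fin 2) F => z 0 1) h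
    have h10 := congrArg (fun z : SpecialLinearGroup (Fin 2) F => z 1 0) h
    have h00 := congrArg (fun z : SpecialLinearGroup (Fin 2) F => z 0 0) h
    simp only [mul01, mul10, mul00] at h01 h10 h00
    have e01 : (1 : SpecialLinearGroup (Fin 2) F) 0 1 = 0 := by simp
    have e10 : (1 : SpecialLinearGroup (Fin 2) F) 1 0 = 0 := by simp
    have e00 : (1 : SpecialLinearGroup (Fin 2) F) 0 0 = 1 := by simp
    rw [e01] at h01
    rw [e10] at h10
    rw [e00] at h00
    have k01 : x 0 1 = 0 := by
      have : tr x * x 0 1 = 0 := by unfold tr; linear_combination h01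
      exact (mul_eq_zero.mp this).resolve_left htr
    have k10 : x 1 0 = 0 := by
      have : tr x * x 1 0 = 0 := by unfold tr; linear_combination h10
      exact (mul_eq_zero.mp this).resolve_left htr
    rw [k01, k10] at hd h00
    have k00 : x 0 0 = 1 := sq_inj (by linear_combination h00)
    have k11 : x 1 1 = 1 := by rw [k00] at hd; linear_combination hd
    apply htr
    unfold tr
    rw [k00, k11]
    linear_combination two_zero (F := F)
  · intro h
    unfold tr at h
    have h2 := two_zero (F := F)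
    have k : x 1 1 = x 0 0 := by linear_combination h - x 0 0 * h2
    have e01 : (1 : SpecialLinearGroup (Fin 2) F) 0 1 = 0 := by simp
    have e10 : (1 : SpecialLinearGroup (Fin 2) F) 1 0 = 0 := by simp
    have e00 : (1 : SpecialLinearGroup (Fin 2) F) 0 0 = 1 := by simp
    have e11 : (1 : SpecialLinearGroup (Fin 2) F) 1 1 = 1 := by simp
    apply ext2
    · rw [mul00, e00]; linear_combination hd - x 0 0 * k + x 0 1 * x 1 0 * h2
    · rw [mul01, e01]; linear_combination x 0 1 * h
    · rw [mul10, e10]; linear_combination x 1 0 * h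
    · rw [mul11, e11]; linear_combination hd + x 1 1 * k + x 0 1 * x 1 0 * h2

theorem eq_one_of_vec {x : SpecialLinearGroup (Fin 2) F} (h1 : x 0 1 = 0) (h2 : x 1 0 = 0) (h3 : x 1 1 - x 0 0 = 0) :
    x = 1 := by
  by_contra hx
  rcases nonscalar hx with h | h | h
  · exact h h1
  · exact h h2
  · exact h h3

/-- If `x` commutes with `y` (not one), the trace-free part of `x` is a multiple of that of `y`. -/
theorem exists_multiple {x y : SpecialLinearGroup (Fin 2) F} (hy : y ≠ 1) (h : Commute x y) :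
    ∃ b : F, x 0 1 = b * y 0 1 ∧ x 1 0 = b * y 1 0 ∧ x 1 1 - x 0 0 = b * (y 1 1 - y 0 0) := by
  rw [commute_iff] at h
  obtain ⟨a1, a2, a3⟩ := h
  rcases nonscalar hy with h | h | h
  · refine ⟨x 0 1 / y 0 1, ?_, ?_, ?_⟩
    · field_simp
    · rw [div_mul_eq_mul_div, eq_div_iff h]; linear_combination -a1
    · rw [div_mul_eq_mul_div, eq_div_iff h]; linear_combination -a2
  · refine ⟨x 1 0 / y 1 0, ?_, ?_, ?_⟩
    · rw [div_mul_eq_mul_div, eq_div_iff h]; linear_combination a1
    · field_simp
    · rw [div_mul_eq_mul_div, eq_div_iff h]; linear_combination -a3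
  · refine ⟨(x 1 1 - x 0 0) / (y 1 1 - y 0 0), ?_, ?_, ?_⟩
    · rw [div_mul_eq_mul_div, eq_div_iff h]; linear_combination a2
    · rw [div_mul_eq_mul_div, eq_div_iff h]; linear_combination a3
    · field_simp

theorem tr_one : tr (1 : SpecialLinearGroup (Fin 2) F) = (0 : F) := by
  have h := (sq_eq_one_iff (1 : SpecialLinearGroup (Fin 2) F) (F := F)).mp (by simp)
  exact h

/-- Commuting elements with the same nonzero trace are equal or inverse. -/
theorem eq_or_eq_inv {x y : SpecialLinearGroup (Fin 2) F} (hx : tr x ≠ 0) (h : Commute y x) (ht : tr y = tr x) :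
    y = x ∨ y = x⁻¹ := by
  have h2 := two_zero (F := F)
  have hx1 : x ≠ 1 := by
    rintro rfl
    exact hx tr_one
  obtain ⟨b, b1, b2, b3⟩ := exists_multiple hx1 h
  unfold tr at hx ht
  have hb : b = 1 := by
    have : (b - 1) * (x 0 0 + x 1 1) = 0 := by
      linear_combination -b3 + ht + (b * x 0 0 - y 0 0) * h2
    exact sub_eq_zero.mp ((mul_eq_zero.mp this).resolve_right hx)
  rw [hb, one_mul] at b1 b2 b3
  have hdx := det2 x
  have hdy := det2 y
  rw [b1, b2] at hdy
  have key : (y 0 0 - x 0 0) * (y 0 0 - x 1 1) = 0 := by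
    linear_combination y 0 0 * ht - hdy + hdx
  rcases mul_eq_zero.mp key with hk | hk
  · left
    have k0 : y 0 0 = x 0 0 := sub_eq_zero.mp hk
    exact ext2 k0 b1 b2 (by linear_combination ht - k0)
  · right
    have k0 : y 0 0 = x 1 1 := sub_eq_zero.mp hk
    apply ext2
    · rw [inv00]; exact k0
    · rw [inv01, b1]; linear_combination x 0 1 * h2
    · rw [inv10, b2]; linear_combination x 1 0 * h2
    · rw [inv11]; linear_combination ht - k0

/-- Everything that commutes with an involution is an involution or one. -/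
theorem sq_of_commute {y z : SpecialLinearGroup (Fin 2) F} (hy : y ≠ 1) (hy2 : y * y = 1) (h : Commute z y) :
    z * z = 1 := by
  have h2 := two_zero (F := F)
  rw [sq_eq_one_iff] at hy2 ⊢
  obtain ⟨b, b1, b2, b3⟩ := exists_multiple hy h
  unfold tr at *
  linear_combination b3 + b * hy2 + (z 0 0 - b * y 0 0) * h2

/-- The matrix `y - 1`. -/
def nil (y : SpecialLinearGroup (Fin 2) F) : Matrix (Fin 2) (Fin 2) F := (y : Matrix (Fin 2) (Fin 2) F) - 1

/-- `g n = c n g` for the nilpotent part `n` of the involution `y`. -/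
def Rel (y g : SpecialLinearGroup (Fin 2) F) (c : F) : Prop :=
  (g : Matrix (Fin 2) (Fin 2) F) * nil y = c • (nil y * (g : Matrix (Fin 2) (Fin 2) F))

theorem nil_ne {y : SpecialLinearGroup (Fin 2) F} (hy : y ≠ 1) : nil y ≠ 0 := by
  intro h
  apply hy
  apply Subtype.ext
  exact sub_eq_zero.mp h

theorem rel_mul {y g g' : SpecialLinearGroup (Fin 2) F} {c c' : F} (h : Rel y g c) (h' : Rel y g' c') :
    Rel y (g * g') (c * c') := by
  unfold Rel at *
  have e : ((g * g' : SpecialLinearGroup (Fin 2) F) : Matrix (Fin 2) (Fin 2) F) = (g : Matrix (Fin 2) (Fin 2) F) * g' := rfl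
  rw [e, Matrix.mul_assoc, h', Matrix.mul_smul, ← Matrix.mul_assoc, h, Matrix.smul_mul, smul_smul,
    Matrix.mul_assoc, mul_comm c' c]

theorem rel_one_iff {y g : SpecialLinearGroup (Fin 2) F} : Rel y g 1 ↔ Commute g y := by
  unfold Rel nil
  rw [one_smul, mul_sub, sub_mul, mul_one, one_mul]
  constructor
  · intro h
    apply Subtype.ext
    exact sub_left_injective h
  · intro h
    have : (g : Matrix (Fin 2) (Fin 2) F) * y = (y : Matrix (Fin 2) (Fin 2) F) * g :=
      congrArg Subtype.val h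
    rw [this]

theorem rel_ne_zero {y g : SpecialLinearGroup (Fin 2) F} (hy : y ≠ 1) {c : F} (h : Rel y g c) : c ≠ 0 := by
  rintro rfl
  unfold Rel at h
  rw [zero_smul] at h
  apply nil_ne hy
  have : ((g⁻¹ : SpecialLinearGroup (Fin 2) F) : Matrix (Fin 2) (Fin 2) F) * ((g : Matrix (Fin 2) (Fin 2) F) * nil y) = 0 := by
    rw [h, mul_zero]
  rw [← mul_assoc] at this
  have e : ((g⁻¹ : SpecialLinearGroup (Fin 2) F) : Matrix (Fin 2) (Fin 2) F) * (g : Matrix (Fin 2) (Fin 2) F) = 1 := by
    have := congrArg Subtype.val (inv_mul_cancel g)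
    exact this
  rwa [e, one_mul] at this

theorem rel_unique {y g : SpecialLinearGroup (Fin 2) F} (hy : y ≠ 1) {c c' : F} (h : Rel y g c) (h' : Rel y g c') :
    c = c' := by
  by_contra hne
  unfold Rel at h h'
  have h1 : (c - c') • (nil y * (g : Matrix (Fin 2) (Fin 2) F)) = 0 := by
    rw [sub_smul, ← h, ← h', sub_self]
  have h2 : nil y * (g : Matrix (Fin 2) (Fin 2) F) = 0 :=
    (smul_eq_zero.mp h1).resolve_left (sub_ne_zero.mpr hne)
  apply nil_ne hy
  have e : (g : Matrix (Fin 2) (Fin 2) F) * ((g⁻¹ : SpecialLinearGroup (Fin 2) F) : Matrix (Fin 2) (Fin 2) F) = 1 := by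
    have := congrArg Subtype.val (mul_inv_cancel g)
    exact this
  have : nil y * (g : Matrix (Fin 2) (Fin 2) F) * ((g⁻¹ : SpecialLinearGroup (Fin 2) F) : Matrix (Fin 2) (Fin 2) F) = 0 := by
    rw [h2, zero_mul]
  rwa [mul_assoc, e, mul_one] at this

theorem rel_inv {y g : SpecialLinearGroup (Fin 2) F} (hy : y ≠ 1) {c : F} (h : Rel y g c) : Rel y g⁻¹ c⁻¹ := by
  have hc := rel_ne_zero hy h
  unfold Rel at *
  have e : (g : Matrix (Fin 2) (Fin 2) F) * ((g⁻¹ : SpecialLinearGroup (Fin 2) F) : Matrix (Fin 2) (Fin 2) F) = 1 :=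
    congrArg Subtype.val (mul_inv_cancel g)
  have e' : ((g⁻¹ : SpecialLinearGroup (Fin 2) F) : Matrix (Fin 2) (Fin 2) F) * (g : Matrix (Fin 2) (Fin 2) F) = 1 :=
    congrArg Subtype.val (inv_mul_cancel g)
  have h1 : ((g⁻¹ : SpecialLinearGroup (Fin 2) F) : Matrix (Fin 2) (Fin 2) F) * (((g : Matrix (Fin 2) (Fin 2) F) * nil y) *
      ((g⁻¹ : SpecialLinearGroup (Fin 2) F) : Matrix (Fin 2) (Fin 2) F)) = nil y * ((g⁻¹ : SpecialLinearGroup (Fin 2) F) : Matrix (Fin 2) (Fin 2) F) := by
    rw [← mul_assoc, ← mul_assoc, e', one_mul]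
  rw [h, Matrix.smul_mul, mul_assoc, e, mul_one, Matrix.mul_smul] at h1
  rw [← h1, smul_smul, inv_mul_cancel₀ hc, one_smul]

/-- If the conjugate of the involution `y` by `g` commutes with `y` then `g n = c n g`. -/
theorem exists_rel {y g : SpecialLinearGroup (Fin 2) F} (hy : y ≠ 1) (hy2 : y * y = 1) (h : Commute (g * y * g⁻¹) y) :
    ∃ c, Rel y g c := by
  have h2 := two_zero (F := F)
  set y' := g * y * g⁻¹ with hy'
  have hy'2 : y' * y' = 1 := by
    rw [hy']
    have : g * y * g⁻¹ * (g * y * g⁻¹) = g * (y * y) * g⁻¹ := by group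
    rw [this, hy2]; group
  obtain ⟨b, b1, b2, b3⟩ := exists_multiple hy h
  have t1 := (sq_eq_one_iff y).mp hy2
  have t2 := (sq_eq_one_iff y').mp hy'2
  unfold tr at t1 t2
  have k1 : y 1 1 = y 0 0 := by linear_combination t1 - y 0 0 * h2
  have k2 : y' 1 1 = y' 0 0 := by linear_combination t2 - y' 0 0 * h2
  have d1 := det2 y
  have d2 := det2 y'
  rw [k1] at d1
  rw [k2, b1, b2] at d2
  have k3 : y' 0 0 - 1 = b * (y 0 0 - 1) := by
    apply sq_inj
    linear_combination d2 - b ^ 2 * d1 + (1 - y' 0 0 + b ^ 2 * y 0 0 - b ^ 2) * h2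
  refine ⟨b, ?_⟩
  have hn : nil y' = b • nil y := by
    ext i j
    unfold nil
    fin_cases i <;> fin_cases j
    · simp only [Fin.zero_eta, Matrix.sub_apply, Matrix.smul_apply, smul_eq_mul]
      simpa using k3
    · simp only [Fin.zero_eta, Fin.mk_one, Matrix.sub_apply, Matrix.smul_apply, smul_eq_mul]
      simpa using b1
    · simp only [Fin.zero_eta, Fin.mk_one, Matrix.sub_apply, Matrix.smul_apply, smul_eq_mul]
      simpa using b2
    · simp only [Fin.mk_one, Matrix.sub_apply, Matrix.smul_apply, smul_eq_mul]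
      rw [k2, k1]
      simpa using k3
  unfold Rel
  have e' : ((g⁻¹ : SpecialLinearGroup (Fin 2) F) : Matrix (Fin 2) (Fin 2) F) * (g : Matrix (Fin 2) (Fin 2) F) = 1 :=
    congrArg Subtype.val (inv_mul_cancel g)
  have e : (g : Matrix (Fin 2) (Fin 2) F) * ((g⁻¹ : SpecialLinearGroup (Fin 2) F) : Matrix (Fin 2) (Fin 2) F) = 1 :=
    congrArg Subtype.val (mul_inv_cancel g)
  have e3 : nil y' = (g : Matrix (Fin 2) (Fin 2) F) * nil y *
      ((g⁻¹ : SpecialLinearGroup (Fin 2) F) : Matrix (Fin 2) (Fin 2) F) := by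
    unfold nil
    have : (y' : Matrix (Fin 2) (Fin 2) F) = (g : Matrix (Fin 2) (Fin 2) F) * y *
      ((g⁻¹ : SpecialLinearGroup (Fin 2) F) : Matrix (Fin 2) (Fin 2) F) := rfl
    rw [this, mul_sub, sub_mul, mul_one, e]
  rw [← Matrix.smul_mul, ← hn, e3, mul_assoc, e', mul_one]

theorem nil_sq {y : SpecialLinearGroup (Fin 2) F} (hy2 : y * y = 1) : nil y * nil y = 0 := by
  have h2 := two_zero (F := F)
  unfold nil
  have e : (y : Matrix (Fin 2) (Fin 2) F) * y = 1 := congrArg Subtype.val hy2
  rw [sub_mul, mul_sub, e, mul_one, one_mul]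
  ext i j
  simp only [Matrix.sub_apply, Matrix.zero_apply]
  linear_combination ((1 : Matrix (Fin 2) (Fin 2) F) i j - (y : Matrix (Fin 2) (Fin 2) F) i j) * h2

omit [CharP F 2] in
theorem polar (A B : Matrix (Fin 2) (Fin 2) F) :
    A * B + B * A = A.trace • B + B.trace • A + ((A * B).trace - A.trace * B.trace) • 1 := by
  ext i j
  fin_cases i <;> fin_cases j <;>
    simp [Matrix.trace_fin_two, Matrix.mul_apply, Fin.sum_univ_two] <;> ring

theorem nil_trace {y : SpecialLinearGroup (Fin 2) F} (hy2 : y * y = 1) : (nil y).trace = 0 := by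
  have h2 := two_zero (F := F)
  have := (sq_eq_one_iff y).mp hy2
  unfold tr at this
  unfold nil
  rw [Matrix.trace_fin_two]
  simp only [Matrix.sub_apply, Matrix.one_apply_eq]
  linear_combination this - h2

/-- `x² ≠ 1` if `x` normalises but does not centralise the involution. -/
theorem rel_sq {y x : SpecialLinearGroup (Fin 2) F} (hy : y ≠ 1) {c : F} (hc : c ≠ 1) (h : Rel y x c) : x * x ≠ 1 := by
  intro hx
  have h1 := rel_mul h h
  rw [hx] at h1
  have h3 : Rel y 1 1 := rel_one_iff.mpr (Commute.one_left y)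
  have := rel_unique hy h1 h3
  apply hc
  apply sq_inj
  linear_combination this

/-- The centraliser of such an `x` normalises the unipotent group of `y`. -/
theorem rel_of_commute {y x z : SpecialLinearGroup (Fin 2) F} (hy : y ≠ 1) (hy2 : y * y = 1) {c : F} (hc : c ≠ 1)
    (h : Rel y x c) (hz : Commute z x) : ∃ c', Rel y z c' := by
  have h2 := two_zero (F := F)
  have hx1 : x ≠ 1 := by
    rintro rfl
    exact rel_sq hy hc h (by simp)
  obtain ⟨b, b1, b2, b3⟩ := exists_multiple hx1 hz
  set a : F := z 0 0 - b * x 0 0 with ha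
  have hzx : (z : Matrix (Fin 2) (Fin 2) F) = a • 1 + b • (x : Matrix (Fin 2) (Fin 2) F) := by
    ext i j
    fin_cases i <;> fin_cases j
    · simp [ha]
    · simpa using b1
    · simpa using b2
    · simp [ha]; linear_combination b3
  have hN2 := nil_sq hy2
  have hNt := nil_trace hy2
  have hN := nil_ne hy
  set N := nil y with hNdef
  set X := (x : Matrix (Fin 2) (Fin 2) F) with hX
  have hXN : X * N = c • (N * X) := h
  have hp := polar X N
  rw [hNt, zero_smul, mul_zero, sub_zero, add_zero, hXN] at hp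
  have h1c : (1 + c) ≠ 0 := by
    intro h0
    apply hc
    linear_combination h0 - h2
  have hp2 : (1 + c) • (N * X) = X.trace • N + (c • (N * X)).trace • (1 : Matrix (Fin 2) (Fin 2) F) := by
    rw [← hp, add_smul, one_smul, add_comm]
  have hτ : (c • (N * X)).trace = 0 := by
    have h3 : N * ((1 + c) • (N * X)) = 0 := by
      rw [Matrix.mul_smul, ← mul_assoc, hN2, zero_mul, smul_zero]
    rw [hp2, mul_add, Matrix.mul_smul, hN2, smul_zero, zero_add, Matrix.mul_smul, mul_one] at h3
    exact (smul_eq_zero.mp h3).resolve_right hN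
  rw [hτ, zero_smul, add_zero] at hp2
  set μ : F := X.trace / (1 + c) with hμ
  have hNX : N * X = μ • N := by
    have : N * X = (1 + c)⁻¹ • ((1 + c) • (N * X)) := by
      rw [smul_smul, inv_mul_cancel₀ h1c, one_smul]
    rw [this, hp2, smul_smul, hμ, div_eq_inv_mul]
  have hzN : (z : Matrix (Fin 2) (Fin 2) F) * N = (a + b * (c * μ)) • N := by
    rw [hzx, add_mul, Matrix.smul_mul, one_mul, Matrix.smul_mul, hXN, hNX, smul_smul, smul_smul,
      add_smul, mul_assoc]
  have hNz : N * (z : Matrix (Fin 2) (Fin 2) F) = (a + b * μ) • N := by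
    rw [hzx, mul_add, Matrix.mul_smul, mul_one, Matrix.mul_smul, hNX, smul_smul, add_smul]
  have hne : a + b * μ ≠ 0 := by
    intro h0
    rw [h0, zero_smul] at hNz
    apply hN
    have e : (z : Matrix (Fin 2) (Fin 2) F) * ((z⁻¹ : SpecialLinearGroup (Fin 2) F) : Matrix (Fin 2) (Fin 2) F) = 1 :=
      congrArg Subtype.val (mul_inv_cancel z)
    have : N * (z : Matrix (Fin 2) (Fin 2) F) * ((z⁻¹ : SpecialLinearGroup (Fin 2) F) : Matrix (Fin 2) (Fin 2) F) = 0 := by
      rw [hNz, zero_mul]
    rwa [mul_assoc, e, mul_one] at this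
  refine ⟨(a + b * (c * μ)) / (a + b * μ), ?_⟩
  unfold Rel
  rw [← hNdef, hzN, hNz, smul_smul, div_mul_cancel₀ _ hne]

theorem rel_pow {y g : SpecialLinearGroup (Fin 2) F} {c : F} (h : Rel y g c) (k : ℕ) : Rel y (g ^ k) (c ^ k) := by
  induction k with
  | zero =>
    rw [pow_zero, pow_zero]
    exact rel_one_iff.mpr (Commute.one_left y)
  | succ k ih =>
    rw [pow_succ, pow_succ]
    exact rel_mul ih h

/-- An element of order prime to `|F| - 1` and normalising the group of `y` centralises `y`. -/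
theorem commute_of_rel [Fintype F] {y g : SpecialLinearGroup (Fin 2) F} (hy : y ≠ 1) {c : F} (h : Rel y g c) {l : ℕ}
    (hl : g ^ l = 1) (hco : Nat.Coprime l (Fintype.card F - 1)) : Commute g y := by
  have hc0 := rel_ne_zero hy h
  have h1 : c ^ l = 1 := by
    have h2 := rel_pow h l
    rw [hl] at h2
    exact rel_unique hy h2 (rel_one_iff.mpr (Commute.one_left y))
  have h2 : c ^ (Fintype.card F - 1) = 1 := FiniteField.pow_card_sub_one_eq_one c hc0
  have h3 : c = 1 := by
    have : orderOf c ∣ Nat.gcd l (Fintype.card F - 1) :=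
      Nat.dvd_gcd (orderOf_dvd_of_pow_eq_one h1) (orderOf_dvd_of_pow_eq_one h2)
    rw [hco] at this
    exact orderOf_eq_one_iff.mp (Nat.dvd_one.mp this)
  rw [h3] at h
  exact rel_one_iff.mp h

end Char2

end Pool.Agent.H91.SL2
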