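import Mathlib

/-!
# Counting in groups in which commuting is transitive away from one
-/

namespace Pool.Agent.H91.SL2

open Classical in
/-- Elements commuting with `x`. -/
noncomputable def cent {Γ : Type*} [Group Γ] [Fintype Γ] (x : Γ) : Finset Γ :=
  Finset.univ.filter fun z => Commute z x

open Classical in
/-- Elements `g` with `g x g⁻¹` commuting with `x`. -/
noncomputable def nrm {Γ : Type*} [Group Γ] [Fintype Γ] (x : Γ) : Finset Γ :=
  Finset.univ.filter fun g => Commute (g * x * g⁻¹) x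

open Classical in
/-- Nonidentity elements with a conjugate commuting with `x`. -/
noncomputable def cls {Γ : Type*} [Group Γ] [Fintype Γ] (x : Γ) : Finset Γ :=
  Finset.univ.filter fun z => z ≠ 1 ∧ ∃ g : Γ, Commute (g * z * g⁻¹) x

variable {Γ : Type*} [Group Γ] [Fintype Γ]

/-- Commuting is transitive away from one. -/
def CA (Γ : Type*) [Group Γ] : Prop :=
  ∀ x y z : Γ, y ≠ 1 → Commute x y → Commute y z → Commute x z

theorem conj_ne_one {g z : Γ} (hz : z ≠ 1) : g * z * g⁻¹ ≠ 1 := by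
  intro h
  apply hz
  have : z = g⁻¹ * (g * z * g⁻¹) * g := by group
  rw [this, h]; group

theorem commute_conj {a b : Γ} (g : Γ) (h : Commute a b) : Commute (g * a * g⁻¹) (g * b * g⁻¹) := by
  show g * a * g⁻¹ * (g * b * g⁻¹) = g * b * g⁻¹ * (g * a * g⁻¹)
  have h1 : g * a * g⁻¹ * (g * b * g⁻¹) = g * (a * b) * g⁻¹ := by group
  have h2 : g * b * g⁻¹ * (g * a * g⁻¹) = g * (b * a) * g⁻¹ := by group
  rw [h1, h2, h.eq]

/-- The number of nonidentity elements with a conjugate commuting with `x`. -/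
theorem card_cls (hCA : CA Γ) {x : Γ} (hx : x ≠ 1) :
    (cls x).card * (nrm x).card = Fintype.card Γ * ((cent x).card - 1) := by
  classical
  let r : Γ → Γ → Prop := fun g z => z ≠ 1 ∧ Commute (g * z * g⁻¹) x
  have key := Finset.sum_card_bipartiteAbove_eq_sum_card_bipartiteBelow
    (s := (Finset.univ : Finset Γ)) (t := (Finset.univ : Finset Γ)) r
  have hL : ∀ g : Γ, ((Finset.univ : Finset Γ).bipartiteAbove r g).card = (cent x).card - 1 := by
    intro g
    have h1 : (cent x).card - 1 = ((cent x).erase 1).card := by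
      rw [Finset.card_erase_of_mem]
      simp [cent]
    rw [h1]
    apply Finset.card_bij (fun z _ => g * z * g⁻¹)
    · intro z hz
      simp only [Finset.bipartiteAbove, Finset.mem_filter, Finset.mem_univ, true_and, r] at hz
      simp only [Finset.mem_erase, cent, Finset.mem_filter, Finset.mem_univ, true_and]
      exact ⟨conj_ne_one hz.1, hz.2⟩
    · intro a _ b _ hab
      simpa using hab
    · intro b hb
      simp only [Finset.mem_erase, cent, Finset.mem_filter, Finset.mem_univ, true_and] at hb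
      refine ⟨g⁻¹ * b * g, ?_, by group⟩
      simp only [Finset.bipartiteAbove, Finset.mem_filter, Finset.mem_univ, true_and, r]
      constructor
      · have := conj_ne_one (g := g⁻¹) hb.1
        simpa using this
      · have : g * (g⁻¹ * b * g) * g⁻¹ = b := by group
        rw [this]; exact hb.2
  have hR : ∀ z : Γ, ((Finset.univ : Finset Γ).bipartiteBelow r z).card =
      if z ∈ cls x then (nrm x).card else 0 := by
    intro z
    split_ifs with hz
    · simp only [cls, Finset.mem_filter, Finset.mem_univ, true_and] at hz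
      obtain ⟨hz1, g0, hg0⟩ := hz
      apply Finset.card_bij (fun g _ => g * g0⁻¹)
      · intro g hg
        simp only [Finset.bipartiteBelow, Finset.mem_filter, Finset.mem_univ, true_and, r] at hg
        simp only [nrm, Finset.mem_filter, Finset.mem_univ, true_and]
        have h1 : Commute ((g * g0⁻¹) * x * (g * g0⁻¹)⁻¹) ((g * g0⁻¹) * (g0 * z * g0⁻¹) * (g * g0⁻¹)⁻¹) :=
          commute_conj _ hg0.symm
        have h2 : (g * g0⁻¹) * (g0 * z * g0⁻¹) * (g * g0⁻¹)⁻¹ = g * z * g⁻¹ := by group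
        rw [h2] at h1
        exact hCA _ _ _ (conj_ne_one hz1) h1 hg.2
      · intro a _ b _ hab
        simpa using hab
      · intro k hk
        simp only [nrm, Finset.mem_filter, Finset.mem_univ, true_and] at hk
        refine ⟨k * g0, ?_, by group⟩
        simp only [Finset.bipartiteBelow, Finset.mem_filter, Finset.mem_univ, true_and, r]
        refine ⟨hz1, ?_⟩
        have h1 : Commute (k * (g0 * z * g0⁻¹) * k⁻¹) (k * x * k⁻¹) := commute_conj _ hg0
        have h2 : k * (g0 * z * g0⁻¹) * k⁻¹ = k * g0 * z * (k * g0)⁻¹ := by group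
        rw [h2] at h1
        exact hCA _ _ _ (conj_ne_one hx) h1 hk
    · rw [Finset.card_eq_zero, Finset.eq_empty_iff_forall_notMem]
      intro g hg
      apply hz
      simp only [Finset.bipartiteBelow, Finset.mem_filter, Finset.mem_univ, true_and, r] at hg
      simp only [cls, Finset.mem_filter, Finset.mem_univ, true_and]
      exact ⟨hg.1, g, hg.2⟩
  rw [Finset.sum_congr rfl (fun g _ => hL g), Finset.sum_congr rfl (fun z _ => hR z)] at key
  rw [Finset.sum_const, Finset.card_univ, smul_eq_mul, Finset.sum_ite_mem, Finset.univ_inter,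
    Finset.sum_const, smul_eq_mul] at key
  exact key.symm

theorem mem_cls_self {x : Γ} (hx : x ≠ 1) : x ∈ cls x := by
  simp only [cls, Finset.mem_filter, Finset.mem_univ, true_and]
  exact ⟨hx, 1, by simp⟩

theorem one_notMem_cls {x : Γ} : (1 : Γ) ∉ cls x := by
  simp [cls]

theorem cls_disjoint (hCA : CA Γ) {x y : Γ} (hy1 : y ≠ 1) (hxy : y ∉ cls x) :
    Disjoint (cls x) (cls y) := by
  rw [Finset.disjoint_left]
  intro z hz hz'
  simp only [cls, Finset.mem_filter, Finset.mem_univ, true_and] at hz hz'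
  obtain ⟨hz1, g, hg⟩ := hz
  obtain ⟨_, g', hg'⟩ := hz'
  apply hxy
  simp only [cls, Finset.mem_filter, Finset.mem_univ, true_and]
  refine ⟨hy1, g * g'⁻¹, ?_⟩
  have h1 : Commute (g * g'⁻¹ * y * (g * g'⁻¹)⁻¹) (g * g'⁻¹ * (g' * z * g'⁻¹) * (g * g'⁻¹)⁻¹) :=
    commute_conj _ hg'.symm
  have h2 : g * g'⁻¹ * (g' * z * g'⁻¹) * (g * g'⁻¹)⁻¹ = g * z * g⁻¹ := by group
  rw [h2] at h1
  exact hCA _ _ _ (conj_ne_one hz1) h1 hg

/-- The weight of the class of `x`. -/
noncomputable def wt (x : Γ) : ℚ := ((cls x).card : ℚ) / (Fintype.card Γ : ℚ)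

theorem wt_eq (hCA : CA Γ) {x : Γ} (hx : x ≠ 1) :
    wt x = (((cent x).card : ℚ) - 1) / ((nrm x).card : ℚ) := by
  have h := card_cls hCA hx
  have h1 : 1 ≤ (cent x).card := Finset.card_pos.mpr ⟨1, by simp [cent]⟩
  have h2 : 1 ≤ (nrm x).card := Finset.card_pos.mpr ⟨1, by simp [nrm]⟩
  have h3 : 0 < Fintype.card Γ := Fintype.card_pos
  unfold wt
  rw [div_eq_div_iff (by positivity) (by positivity)]
  have h4 : (((cls x).card * (nrm x).card : ℕ) : ℚ) =
    ((Fintype.card Γ * ((cent x).card - 1) : ℕ) : ℚ) := by rw [h]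
  push_cast [Nat.cast_sub h1] at h4
  linarith

theorem sum_wt_le (hCA : CA Γ) (S : Finset Γ) (h1 : ∀ x ∈ S, x ≠ 1)
    (h2 : ∀ x ∈ S, ∀ y ∈ S, x ≠ y → y ∉ cls x) :
    ∑ x ∈ S, wt x ≤ 1 - 1 / (Fintype.card Γ : ℚ) := by
  classical
  have h3 : (0 : ℚ) < Fintype.card Γ := by
    have : 0 < Fintype.card Γ := Fintype.card_pos
    exact_mod_cast this
  have hd : (S : Set Γ).PairwiseDisjoint cls := by
    intro x hx y hy hxy
    exact cls_disjoint hCA (h1 y hy) (h2 x hx y hy hxy)
  have h4 : (S.biUnion cls).card = ∑ x ∈ S, (cls x).card := Finset.card_biUnion hd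
  have h5 : (S.biUnion cls).card ≤ Fintype.card Γ - 1 := by
    have : S.biUnion cls ⊆ (Finset.univ : Finset Γ).erase 1 := by
      intro z hz
      rw [Finset.mem_biUnion] at hz
      obtain ⟨x, _, hz⟩ := hz
      rw [Finset.mem_erase]
      refine ⟨?_, Finset.mem_univ _⟩
      rintro rfl
      exact one_notMem_cls hz
    refine (Finset.card_le_card this).trans ?_
    rw [Finset.card_erase_of_mem (Finset.mem_univ _), Finset.card_univ]
  unfold wt
  rw [← Finset.sum_div, div_le_iff₀ h3, sub_mul, one_div, inv_mul_cancel₀ (ne_of_gt h3), one_mul]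
  have h6 : ((∑ x ∈ S, (cls x).card : ℕ) : ℚ) ≤ ((Fintype.card Γ - 1 : ℕ) : ℚ) := by
    rw [← h4]; exact_mod_cast h5
  rw [Nat.cast_sub (Nat.one_le_iff_ne_zero.mpr (Fintype.card_ne_zero))] at h6
  push_cast at h6
  linarith

theorem sum_wt_eq (hCA : CA Γ) (S : Finset Γ) (h1 : ∀ x ∈ S, x ≠ 1)
    (h2 : ∀ x ∈ S, ∀ y ∈ S, x ≠ y → y ∉ cls x) (h0 : ∀ z : Γ, z ≠ 1 → ∃ x ∈ S, z ∈ cls x) :
    ∑ x ∈ S, wt x = 1 - 1 / (Fintype.card Γ : ℚ) := by
  classical
  have h3 : (0 : ℚ) < Fintype.card Γ := by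
    have : 0 < Fintype.card Γ := Fintype.card_pos
    exact_mod_cast this
  have hd : (S : Set Γ).PairwiseDisjoint cls := by
    intro x hx y hy hxy
    exact cls_disjoint hCA (h1 y hy) (h2 x hx y hy hxy)
  have h4 : (S.biUnion cls).card = ∑ x ∈ S, (cls x).card := Finset.card_biUnion hd
  have h5 : S.biUnion cls = (Finset.univ : Finset Γ).erase 1 := by
    ext z
    rw [Finset.mem_biUnion, Finset.mem_erase]
    constructor
    · rintro ⟨x, _, hz⟩
      refine ⟨?_, Finset.mem_univ _⟩
      rintro rfl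
      exact one_notMem_cls hz
    · rintro ⟨hz, _⟩
      exact h0 z hz
  have h6 : (∑ x ∈ S, (cls x).card) = Fintype.card Γ - 1 := by
    rw [← h4, h5, Finset.card_erase_of_mem (Finset.mem_univ _), Finset.card_univ]
  unfold wt
  rw [← Finset.sum_div, div_eq_iff (ne_of_gt h3), sub_mul, one_div,
    inv_mul_cancel₀ (ne_of_gt h3), one_mul]
  have h7 : ((∑ x ∈ S, (cls x).card : ℕ) : ℚ) = ((Fintype.card Γ - 1 : ℕ) : ℚ) := by
    rw [h6]
  rw [Nat.cast_sub (Nat.one_le_iff_ne_zero.mpr (Fintype.card_ne_zero))] at h7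
  push_cast at h7
  linarith

end Pool.Agent.H91.SL2
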