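import Pool.Agent.H91.SL2.Parts

/-!
# Proper subgroups of `SL_2(2^(2^j))` of order not prime to `2^(2^j) + 1`

Such a subgroup has an abelian subgroup of index at most two.
-/

namespace Pool.Agent.H91.SL2

open Matrix

/-- The arithmetic of the class equation. -/
theorem arith {d t q h : ℕ} (hd : Odd d) (ht : Odd t) (ht3 : 3 ≤ t) (htq : t < q) (hqt : q * t < h)
    (he : (1 : ℚ) / 2 - 1 / (2 * d) + (1 / 2 - 1 / (2 * t)) + (q - 1) / (q * t) = 1 - 1 / h)
    (hd3 : 3 ≤ d) : d = q + 1 ∧ h = q * (q + 1) * (q - 1) := by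
  have hd0 : (0 : ℚ) < d := by exact_mod_cast (by omega : 0 < d)
  have ht0 : (0 : ℚ) < t := by exact_mod_cast (by omega : 0 < t)
  have hq0 : (0 : ℚ) < q := by exact_mod_cast (by omega : 0 < q)
  have hh0 : (0 : ℚ) < h := by exact_mod_cast (by omega : 0 < h)
  -- multiply out: q t h = (q - 2) d h + 2 q t d
  have key : (q : ℚ) * t * h = (q - 2) * d * h + 2 * q * t * d := by
    field_simp at he
    nlinarith [he]
  have keyZ : (q : ℤ) * t * h = (q - 2) * d * h + 2 * q * t * d := by exact_mod_cast key
  have hd3' : (3 : ℤ) ≤ d := by exact_mod_cast hd3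
  have ht3' : (3 : ℤ) ≤ t := by exact_mod_cast ht3
  have htq' : (t : ℤ) < q := by exact_mod_cast htq
  have hqt' : (q : ℤ) * t < h := by exact_mod_cast hqt
  have hh0' : (0 : ℤ) < h := by exact_mod_cast (by omega : 0 < h)
  -- t < d
  have htd : (t : ℤ) < d := by
    by_contra hcon
    push Not at hcon
    have h1 : (h : ℤ) * (q * t - (q - 2) * d) = 2 * q * t * d := by linear_combination keyZ
    have h2 : (q : ℤ) * t - (q - 2) * d ≥ 2 * d := by nlinarith
    nlinarith [mul_le_mul_of_nonneg_left h2 hh0'.le, mul_pos (by linarith : (0:ℤ) < h - q * t) (by linarith : (0:ℤ) < d)]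
  have hq0' : (0 : ℤ) < q := by linarith
  have ht0' : (0 : ℤ) < t := by linarith
  have hd0' : (0 : ℤ) < d := by linarith
  have hlt : ((q : ℤ) - 2) * d < q * t := by
    have h1 : (h : ℤ) * (q * t - (q - 2) * d) = 2 * q * t * d := by linear_combination keyZ
    have h2 : (0 : ℤ) < 2 * q * t * d := by positivity
    rw [← h1] at h2
    have h3 := (mul_pos_iff_of_pos_left hh0').mp h2
    linarith
  have hd2 : (t : ℤ) + 2 ≤ d := by
    obtain ⟨a, ha⟩ := hd
    obtain ⟨b, hb⟩ := ht
    have : t < d := by exact_mod_cast htd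
    have h3 : t + 2 ≤ d := by omega
    exact_mod_cast h3
  have htq1 : (t : ℤ) = q - 1 := by
    have h3 : (q : ℤ) - 2 < t := by nlinarith
    linarith [Int.add_one_le_iff.mpr h3, Int.add_one_le_iff.mpr htq']
  have hdq : (d : ℤ) = q + 1 := by
    have h4 : (q : ℤ) + 1 ≤ d := by linarith
    by_contra hne
    have h5 : (q : ℤ) + 2 ≤ d := by
      rcases lt_or_eq_of_le h4 with h | h
      · linarith [Int.add_one_le_iff.mpr h]
      · exact absurd h.symm hne
    have h6 : (q : ℤ) + 3 ≤ d := by
      obtain ⟨a, ha⟩ := hd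
      obtain ⟨b, hb⟩ := ht
      have h7 : q = t + 1 := by
        have : (q : ℤ) = t + 1 := by linarith
        exact_mod_cast this
      have h8 : q + 2 ≤ d := by exact_mod_cast h5
      have h9 : q + 3 ≤ d := by omega
      exact_mod_cast h9
    rw [htq1] at hlt
    nlinarith
  have hdq' : d = q + 1 := by exact_mod_cast hdq
  refine ⟨hdq', ?_⟩
  have h10 : (h : ℤ) * 2 = 2 * (q * (q + 1) * (q - 1)) := by
    rw [htq1, hdq] at keyZ
    linear_combination keyZ
  have h11 : (h : ℤ) = q * (q + 1) * (q - 1) := by linarith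
  have h12 : ((q - 1 : ℕ) : ℤ) = (q : ℤ) - 1 := by
    rw [Nat.cast_sub (by omega)]; simp
  have : (h : ℤ) = ((q * (q + 1) * (q - 1) : ℕ) : ℤ) := by
    push_cast
    rw [h12, h11]
  exact_mod_cast this

/-- The order of two modulo a prime divisor of a Fermat number. -/
theorem fermat_le {l m j : ℕ} (hl : l.Prime) (h1 : l ∣ 2 ^ m + 1) (h2 : l ∣ 2 ^ (2 ^ j) + 1)
    (hm : m ≠ 0) : 2 ^ j ≤ m := by
  have hl2 : l ≠ 2 := by
    rintro rfl
    have h3 : (2 : ℕ) ∣ 2 ^ (2 ^ j) := dvd_pow_self 2 (by positivity)
    have := (Nat.dvd_add_right h3).mp h2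
    omega
  have : Fact l.Prime := ⟨hl⟩
  have hlt : 2 < l := lt_of_le_of_ne hl.two_le (Ne.symm hl2)
  have hneg : (-1 : ZMod l) ≠ 1 := by
    have : Fact (2 < l) := ⟨hlt⟩
    exact ZMod.neg_one_ne_one
  have e1 : (2 : ZMod l) ^ m = -1 := by
    have := (ZMod.natCast_eq_zero_iff (2 ^ m + 1) l).mpr h1
    push_cast at this
    linear_combination this
  have e2 : (2 : ZMod l) ^ (2 ^ j) = -1 := by
    have := (ZMod.natCast_eq_zero_iff (2 ^ (2 ^ j) + 1) l).mpr h2
    push_cast at this
    linear_combination this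
  have o : orderOf (2 : ZMod l) = 2 ^ (j + 1) := by
    apply orderOf_eq_prime_pow
    · rw [e2]; exact hneg
    · rw [pow_succ, pow_mul, e2]; ring
  have h3 : (2 : ZMod l) ^ (2 * m) = 1 := by
    rw [mul_comm, pow_mul, e1]; ring
  have h4 := orderOf_dvd_of_pow_eq_one h3
  rw [o] at h4
  have h5 : 2 ^ (j + 1) ≤ 2 * m := Nat.le_of_dvd (by omega) h4
  rw [pow_succ] at h5
  omega

/-- An upper bound (in fact the value) of the order of `SL_2(F)`. -/
theorem card_le {F : Type*} [Field F] [Fintype F] [Fintype (SpecialLinearGroup (Fin 2) F)] :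
    Fintype.card (SpecialLinearGroup (Fin 2) F) ≤
      (Fintype.card F * Fintype.card F - 1) * Fintype.card F := by
  classical
  let f : SpecialLinearGroup (Fin 2) F → {p : F × F // p ≠ 0} × F := fun g =>
    (⟨(g 0 0, g 0 1), by
      intro h
      have h1 := congrArg Prod.fst h
      have h2 := congrArg Prod.snd h
      simp only [Prod.fst_zero, Prod.snd_zero] at h1 h2
      have h3 := det2 g
      rw [h1, h2] at h3
      simp at h3⟩, if g 0 0 = 0 then g 1 1 else g 1 0)
  have hf : Function.Injective f := by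
    intro g g' h
    have h1 : g 0 0 = g' 0 0 := congrArg (fun z => z.1.1.1) h
    have h2 : g 0 1 = g' 0 1 := congrArg (fun z => z.1.1.2) h
    have h3 : (if g 0 0 = 0 then g 1 1 else g 1 0) = (if g' 0 0 = 0 then g' 1 1 else g' 1 0) :=
      congrArg (fun z => z.2) h
    have d1 := det2 g
    have d2 := det2 g'
    rw [← h1, ← h2] at d2
    rw [← h1] at h3
    by_cases h0 : g 0 0 = 0
    · rw [if_pos h0, if_pos h0] at h3
      rw [h0] at d1 d2
      have hb : g 0 1 ≠ 0 := by
        intro hb
        rw [hb] at d1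
        simp at d1
      refine ext2 h1 h2 ?_ h3
      apply mul_left_cancel₀ hb
      linear_combination d2 - d1
    · rw [if_neg h0, if_neg h0] at h3
      refine ext2 h1 h2 h3 ?_
      apply mul_left_cancel₀ h0
      linear_combination d1 - d2 + g 0 1 * h3
  have h1 := Fintype.card_le_of_injective f hf
  rw [Fintype.card_prod] at h1
  have h2 : Fintype.card {p : F × F // p ≠ 0} = Fintype.card F * Fintype.card F - 1 := by
    rw [Fintype.card_subtype_compl, Fintype.card_prod]
    simp
  rwa [h2] at h1

section Weights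

variable {F : Type*} [Field F] [CharP F 2] {H : Subgroup (SpecialLinearGroup (Fin 2) F)} [Fintype H]

theorem wt_odd {x : H} (hx : x * x ≠ 1) : 1 / 3 ≤ wt x ∧
    ((nrm x).card = (cent x).card → wt x = 1 - 1 / ((cent x).card : ℚ)) ∧
    ((nrm x).card = 2 * (cent x).card → wt x = 1 / 2 - 1 / (2 * ((cent x).card : ℚ))) := by
  have h1 := wt_eq (ca_subgroup H) (ne_one_of_sq hx)
  obtain ⟨_, h3⟩ := cent_odd hx
  have h3' : (3 : ℚ) ≤ (cent x).card := by exact_mod_cast h3
  have h0 : (0 : ℚ) < (cent x).card := by linarith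
  have h4 : 1 / ((cent x).card : ℚ) ≤ 1 / 3 := one_div_le_one_div_of_le (by norm_num) h3'
  have ha : (nrm x).card = (cent x).card → wt x = 1 - 1 / ((cent x).card : ℚ) := by
    intro h
    rw [h1, h]; field_simp
  have hb : (nrm x).card = 2 * (cent x).card → wt x = 1 / 2 - 1 / (2 * ((cent x).card : ℚ)) := by
    intro h
    rw [h1, h]; push_cast; field_simp
  refine ⟨?_, ha, hb⟩
  rcases card_nrm_odd hx with h | h
  · rw [ha h]; linarith
  · rw [hb h]
    have : 1 / (2 * ((cent x).card : ℚ)) = 1 / ((cent x).card : ℚ) / 2 := by field_simp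
    rw [this]; linarith

theorem notMem_cls_inv {x y : H} (hx : x * x ≠ 1) (hy : y ≠ 1) (hy2 : y * y = 1) : x ∉ cls y := by
  intro h
  rw [mem_cls] at h
  obtain ⟨_, g, hg⟩ := h
  have h1 := sq_of_commute' hy hy2 hg
  apply hx
  have h2 : g * (x * x) * g⁻¹ = 1 := by rw [← h1]; group
  have h3 : x * x = g⁻¹ * (g * (x * x) * g⁻¹) * g := by group
  rw [h3, h2]; group

theorem two_wt {x y : H} (hx : x ≠ 1) (hy : y ≠ 1) (hxy : y ∉ cls x) : wt x + wt y < 1 := by
  classical
  have hyx : x ∉ cls y := fun h => hxy (cls_symm hy h)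
  have hne : x ≠ y := by
    rintro rfl
    exact hxy (mem_cls_self hx)
  have h := sum_wt_le (ca_subgroup H) {x, y} (by
    intro z hz
    simp only [Finset.mem_insert, Finset.mem_singleton] at hz
    rcases hz with rfl | rfl <;> assumption) (by
    intro a ha b hb hab
    simp only [Finset.mem_insert, Finset.mem_singleton] at ha hb
    rcases ha with rfl | rfl <;> rcases hb with rfl | rfl
    · exact absurd rfl hab
    · exact hxy
    · exact hyx
    · exact absurd rfl hab)
  rw [Finset.sum_pair hne] at h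
  have h0 : (0 : ℚ) < Fintype.card H := by exact_mod_cast Fintype.card_pos
  have : (0 : ℚ) < 1 / Fintype.card H := by positivity
  linarith

theorem three_wt {x y z : H} (hx : x ≠ 1) (hy : y ≠ 1) (hz : z ≠ 1) (hxy : y ∉ cls x)
    (hxz : z ∉ cls x) (hyz : z ∉ cls y) : wt x + wt y + wt z < 1 := by
  classical
  have hyx : x ∉ cls y := fun h => hxy (cls_symm hy h)
  have hzx : x ∉ cls z := fun h => hxz (cls_symm hz h)
  have hzy : y ∉ cls z := fun h => hyz (cls_symm hz h)
  have hne : x ≠ y := by
    rintro rfl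
    exact hxy (mem_cls_self hx)
  have hne2 : x ≠ z := by
    rintro rfl
    exact hxz (mem_cls_self hx)
  have hne3 : y ≠ z := by
    rintro rfl
    exact hyz (mem_cls_self hy)
  have h := sum_wt_le (ca_subgroup H) {x, y, z} (by
    intro z hz
    simp only [Finset.mem_insert, Finset.mem_singleton] at hz
    rcases hz with rfl | rfl | rfl <;> assumption) (by
    intro a ha b hb hab
    simp only [Finset.mem_insert, Finset.mem_singleton] at ha hb
    rcases ha with rfl | rfl | rfl <;> rcases hb with rfl | rfl | rfl <;>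
      first
        | exact absurd rfl hab
        | assumption)
  rw [Finset.sum_insert (by simp [hne, hne2]), Finset.sum_pair hne3] at h
  have h0 : (0 : ℚ) < Fintype.card H := by exact_mod_cast Fintype.card_pos
  have : (0 : ℚ) < 1 / Fintype.card H := by positivity
  linarith

end Weights

section Main

variable {F : Type*} [Field F] [CharP F 2] {H : Subgroup (SpecialLinearGroup (Fin 2) F)} [Fintype H]

/-- A subgroup of order divisible by a prime divisor of `|F| + 1` which is not contained in the
normaliser of a torus: the class equation. -/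
theorem class_equation [Fintype F] {s : H} {l : ℕ} (hl : l.Prime) (hl2 : Odd l) (hs : s ^ l = 1)
    (hs1 : s ≠ 1) (hco : Nat.Coprime l (Fintype.card F - 1)) (hN : (nrm s).card < Fintype.card H) :
    ∃ m : ℕ, m ≠ 0 ∧ (cent s).card = 2 ^ m + 1 ∧
      Fintype.card H = 2 ^ m * (2 ^ m + 1) * (2 ^ m - 1) := by
  classical
  have hCA := ca_subgroup H
  have hs2 : s * s ≠ 1 := by
    intro h
    apply hs1
    obtain ⟨k, rfl⟩ := hl2
    rw [pow_succ, pow_mul, pow_two, h, one_pow, one_mul] at hs
    exact hs
  obtain ⟨hsw, hsw1, hsw2⟩ := wt_odd hs2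
  obtain ⟨hdodd, hd3⟩ := cent_odd hs2
  have hh0 : (0 : ℚ) < Fintype.card H := by exact_mod_cast Fintype.card_pos
  have hd0 : (0 : ℚ) < (cent s).card := by exact_mod_cast (by omega : 0 < (cent s).card)
  -- Step 1
  have hN2 : (nrm s).card = 2 * (cent s).card := by
    rcases card_nrm_odd hs2 with h | h
    swap
    · exact h
    exfalso
    have hw := hsw1 h
    have hd3' : (3 : ℚ) ≤ (cent s).card := by exact_mod_cast hd3
    have hd4 : 1 / ((cent s).card : ℚ) ≤ 1 / 3 := one_div_le_one_div_of_le (by norm_num) hd3'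
    by_cases hcov : ∀ z : H, z ≠ 1 → z ∈ cls s
    · have h1 := sum_wt_eq hCA {s} (by simpa using hs1) (by
        intro a ha b hb hab
        rw [Finset.mem_singleton] at ha hb
        exact absurd (ha.trans hb.symm) hab) (by
        intro z hz
        exact ⟨s, Finset.mem_singleton_self s, hcov z hz⟩)
      rw [Finset.sum_singleton, hw] at h1
      have h2 : (1 : ℚ) / (cent s).card = 1 / Fintype.card H := by linarith
      have h3 : ((cent s).card : ℚ) = Fintype.card H := by
        rw [div_eq_div_iff (ne_of_gt hd0) (ne_of_gt hh0)] at h2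
        linarith
      have h4 : (cent s).card = Fintype.card H := by exact_mod_cast h3
      omega
    · push Not at hcov
      obtain ⟨z, hz1, hz⟩ := hcov
      by_cases hz2 : z * z = 1
      · by_cases hsub : ∃ x ∈ nrm z, x ∉ cent z
        · obtain ⟨x, hxn, hxc⟩ := hsub
          obtain ⟨hx2, -, -, -⟩ := nrm_inv hz1 hz2 hxn hxc
          have h1 := not_mem_cls_of_borel hl2 hs hs1 hco hz1 hz2 hxn
          have h2 := two_wt hs1 (ne_one_of_sq hx2) h1
          have h3 := (wt_odd hx2).1
          linarith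
        · push Not at hsub
          have h1 : nrm z = cent z := by
            ext g
            constructor
            · exact fun hg => hsub g hg
            · intro hg
              rw [mem_cent] at hg
              rw [mem_nrm, conj_eq_iff.mpr hg]
              exact Commute.refl z
          have h2 := wt_eq hCA hz1
          rw [h1] at h2
          have h3 : 1 < (cent z).card := by
            rw [Finset.one_lt_card]
            exact ⟨z, by rw [mem_cent]; exact Commute.refl z, 1, by rw [mem_cent]; exact Commute.one_left z, hz1⟩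
          have h4 : (2 : ℚ) ≤ (cent z).card := by exact_mod_cast h3
          have h5 : wt z = 1 - 1 / ((cent z).card : ℚ) := by
            rw [h2]; field_simp
          have h6 : 1 / ((cent z).card : ℚ) ≤ 1 / 2 := one_div_le_one_div_of_le (by norm_num) h4
          have h7 := two_wt hs1 hz1 hz
          linarith
      · have h1 := two_wt hs1 hz1 hz
        have h2 := (wt_odd hz2).1
        linarith
  have hw := hsw2 hN2
  -- an involution
  obtain ⟨y, hy1, hy2⟩ : ∃ y : H, y ≠ 1 ∧ y * y = 1 := by
    by_contra hcon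
    push Not at hcon
    have : ∀ g : H, g * s * g⁻¹ ≠ s⁻¹ := by
      intro g hg
      obtain ⟨h1, h2⟩ := inverting_sq hs2 hg
      exact hcon g h1 h2
    have h1 := nrm_eq_cent hs2 this
    rw [h1] at hN2
    omega
  have hyn : y ∈ nrm y := by
    rw [mem_nrm, conj_eq_iff.mpr (Commute.refl y)]
    exact Commute.refl y
  have hys := not_mem_cls_of_borel hl2 hs hs1 hco hy1 hy2 hyn
  have hwy := wt_eq hCA hy1
  have hq2 : 1 < (cent y).card := by
    rw [Finset.one_lt_card]
    exact ⟨y, by rw [mem_cent]; exact Commute.refl y, 1, by rw [mem_cent]; exact Commute.one_left y, hy1⟩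
  have hq2' : (2 : ℚ) ≤ (cent y).card := by exact_mod_cast hq2
  by_cases hsub : ∃ x ∈ nrm y, x ∉ cent y
  swap
  · exfalso
    push Not at hsub
    have h1 : nrm y = cent y := by
      ext g
      constructor
      · exact fun hg => hsub g hg
      · intro hg
        rw [mem_cent] at hg
        rw [mem_nrm, conj_eq_iff.mpr hg]
        exact Commute.refl y
    rw [h1] at hwy
    have h5 : wt y = 1 - 1 / ((cent y).card : ℚ) := by
      rw [hwy]; field_simp
    have h6 := two_wt hs1 hy1 hys
    have h7 : (cent y).card = 2 := by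
      by_contra hne
      have h8 : (3 : ℚ) ≤ (cent y).card := by exact_mod_cast (by omega : 3 ≤ (cent y).card)
      have h9 : 1 / ((cent y).card : ℚ) ≤ 1 / 3 := one_div_le_one_div_of_le (by norm_num) h8
      linarith
    rw [h7] at h5
    have hcov : ∀ z : H, z ≠ 1 → ∃ x ∈ ({s, y} : Finset H), z ∈ cls x := by
      intro z hz
      by_cases hz2 : z * z = 1
      · exact ⟨y, by simp, inv_mem_cls hy1 hy2 hz hz2⟩
      · refine ⟨s, by simp, ?_⟩
        by_contra hzs
        have h8 := three_wt hs1 hy1 hz hys hzs (notMem_cls_inv hz2 hy1 hy2)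
        have h9 := (wt_odd hz2).1
        push_cast at h5
        linarith
    have hsy : s ∉ cls y := notMem_cls_inv hs2 hy1 hy2
    have hne : s ≠ y := by
      rintro rfl
      exact hys (mem_cls_self hs1)
    have h8 := sum_wt_eq hCA {s, y} (by
      intro z hz
      simp only [Finset.mem_insert, Finset.mem_singleton] at hz
      rcases hz with rfl | rfl <;> assumption) (by
      intro a ha b hb hab
      simp only [Finset.mem_insert, Finset.mem_singleton] at ha hb
      rcases ha with rfl | rfl <;> rcases hb with rfl | rfl <;>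
        first
          | exact absurd rfl hab
          | assumption) hcov
    rw [Finset.sum_pair hne, hw, h5] at h8
    push_cast at h8
    have h9 : (1 : ℚ) / (2 * (cent s).card) = 1 / Fintype.card H := by linarith
    have h10 : (2 * (cent s).card : ℚ) = Fintype.card H := by
      rw [div_eq_div_iff (by positivity) (ne_of_gt hh0)] at h9
      linarith
    have h11 : 2 * (cent s).card = Fintype.card H := by exact_mod_cast h10
    omega
  -- the main case
  obtain ⟨x, hxn, hxc⟩ := hsub
  obtain ⟨hx2, hxN, hprod, hlt⟩ := nrm_inv hy1 hy2 hxn hxc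
  have hx1 := ne_one_of_sq hx2
  have hxs := not_mem_cls_of_borel hl2 hs hs1 hco hy1 hy2 hxn
  obtain ⟨hxw, hxw1, hxw2⟩ := wt_odd hx2
  obtain ⟨htodd, ht3⟩ := cent_odd hx2
  have ht0 : (0 : ℚ) < (cent x).card := by exact_mod_cast (by omega : 0 < (cent x).card)
  have hq0 : (0 : ℚ) < (cent y).card := by linarith
  have hwy2 : wt y = (((cent y).card : ℚ) - 1) / ((cent y).card * (cent x).card) := by
    rw [hwy, hprod]; push_cast; ring
  have hwypos : 0 < wt y := by
    rw [hwy2]
    apply div_pos (by linarith) (by positivity)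
  have hxy := notMem_cls_inv hx2 hy1 hy2
  have hyx : y ∉ cls x := fun h => hxy (cls_symm hx1 h)
  have hN3 : (nrm x).card = 2 * (cent x).card := by
    rcases card_nrm_odd hx2 with h | h
    swap
    · exact h
    exfalso
    have h1 := hxw1 h
    have h2 : (3 : ℚ) ≤ (cent x).card := by exact_mod_cast ht3
    have h3 : 1 / ((cent x).card : ℚ) ≤ 1 / 3 := one_div_le_one_div_of_le (by norm_num) h2
    have h4 := three_wt hs1 hx1 hy1 hxs hys hyx
    linarith
  have hwx := hxw2 hN3
  have hcov : ∀ z : H, z ≠ 1 → ∃ w ∈ ({s, x, y} : Finset H), z ∈ cls w := by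
    intro z hz
    by_cases hz2 : z * z = 1
    · exact ⟨y, by simp, inv_mem_cls hy1 hy2 hz hz2⟩
    · by_cases hzs : z ∈ cls s
      · exact ⟨s, by simp, hzs⟩
      · refine ⟨x, by simp, ?_⟩
        by_contra hzx
        have h8 := three_wt hs1 hx1 hz hxs hzs hzx
        have h9 := (wt_odd hz2).1
        linarith
  have hsx : s ∉ cls x := fun h => hxs (cls_symm hx1 h)
  have hsy : s ∉ cls y := notMem_cls_inv hs2 hy1 hy2
  have hne1 : s ≠ x := by
    rintro rfl
    exact hxs (mem_cls_self hs1)
  have hne2 : s ≠ y := by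
    rintro rfl
    exact hys (mem_cls_self hs1)
  have hne3 : x ≠ y := by
    rintro rfl
    exact hyx (mem_cls_self hx1)
  have h8 := sum_wt_eq hCA {s, x, y} (by
    intro z hz
    simp only [Finset.mem_insert, Finset.mem_singleton] at hz
    rcases hz with rfl | rfl | rfl <;> assumption) (by
    intro a ha b hb hab
    simp only [Finset.mem_insert, Finset.mem_singleton] at ha hb
    rcases ha with rfl | rfl | rfl <;> rcases hb with rfl | rfl | rfl <;>
      first
        | exact absurd rfl hab
        | assumption) hcov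
  rw [Finset.sum_insert (by simp [hne1, hne2]), Finset.sum_pair hne3, hw, hwx, hwy2] at h8
  have hqt : (cent y).card * (cent x).card < Fintype.card H := by
    rw [← hprod, ← Finset.card_univ]
    apply Finset.card_lt_card
    rw [Finset.ssubset_univ_iff]
    intro huniv
    have h1 : s ∈ nrm y := by rw [huniv]; exact Finset.mem_univ s
    exact not_mem_cls_of_borel hl2 hs hs1 hco hy1 hy2 h1 (mem_cls_self hs1)
  obtain ⟨r1, r2⟩ := arith hdodd htodd ht3 hlt hqt (by linarith) hd3
  -- the order of the centraliser of y is a power of two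
  have hpg : IsPGroup 2 ↥(Subgroup.centralizer ({y} : Set H)) := by
    intro g
    refine ⟨1, ?_⟩
    have h1 : Commute (g : H) y := by
      have := g.2
      rw [Subgroup.mem_centralizer_singleton_iff] at this
      exact this
    have h2 := sq_of_commute' hy1 hy2 h1
    rw [pow_one, pow_two]
    exact Subtype.ext h2
  have hfact : Fact (Nat.Prime 2) := ⟨Nat.prime_two⟩
  obtain ⟨m, hm⟩ := IsPGroup.iff_card.mp hpg
  rw [card_centralizer] at hm
  refine ⟨m, ?_, ?_, ?_⟩
  · rintro rfl
    rw [pow_zero] at hm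
    omega
  · rw [r1, hm]
  · rw [r2, hm]

end Main

/-- **Dickson for Fermat fields.** A proper subgroup of `SL_2(F)`, `|F| = 2^(2^j)`, whose order is
not prime to `|F| + 1` has an abelian subgroup of index at most two. -/
theorem dickson {F : Type*} [Field F] [Fintype F] {j : ℕ} (hF : Fintype.card F = 2 ^ (2 ^ j))
    (H : Subgroup (SpecialLinearGroup (Fin 2) F)) (hne : H ≠ ⊤)
    (hco : ¬ Nat.Coprime (Nat.card H) (2 ^ (2 ^ j) + 1)) :
    ∃ A : Subgroup H, (∀ a ∈ A, ∀ b ∈ A, a * b = b * a) ∧ A.index ≤ 2 := by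
  classical
  have hchar : CharP F 2 := by
    obtain ⟨p, hp⟩ := CharP.exists F
    obtain ⟨n, hpp, hn⟩ := FiniteField.card F p
    have : p = 2 := by
      have h1 : p ∣ 2 ^ (2 ^ j) := by
        rw [← hF, hn]
        exact dvd_pow_self p n.ne_zero
      exact (Nat.prime_dvd_prime_iff_eq hpp Nat.prime_two).mp (hpp.dvd_of_dvd_pow h1)
    rw [← this]
    exact hp
  have hfin : Fintype H := Fintype.ofFinite H
  have hfinG : Fintype (SpecialLinearGroup (Fin 2) F) := Fintype.ofFinite _
  obtain ⟨l, hl, hl1, hl2⟩ := Nat.Prime.not_coprime_iff_dvd.mp hco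
  have hfact : Fact l.Prime := ⟨hl⟩
  obtain ⟨s, hs⟩ := exists_prime_orderOf_dvd_card' l hl1
  have hpow : s ^ l = 1 := by rw [← hs]; exact pow_orderOf_eq_one s
  have hs1 : s ≠ 1 := by
    rintro rfl
    rw [orderOf_one] at hs
    exact hl.one_lt.ne hs
  have h2Q : (2 : ℕ) ∣ 2 ^ (2 ^ j) := dvd_pow_self 2 (by positivity)
  have hl_ne : l ≠ 2 := by
    rintro rfl
    have := (Nat.dvd_add_right h2Q).mp hl2
    omega
  have hlodd : Odd l := hl.odd_of_ne_two hl_ne
  have hcop : Nat.Coprime l (Fintype.card F - 1) := by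
    rw [hF]
    rw [Nat.Prime.coprime_iff_not_dvd hl]
    intro h
    have h0 : 1 ≤ 2 ^ (2 ^ j) := Nat.one_le_two_pow
    have h3 : l ∣ 2 := by
      have := (Nat.dvd_sub hl2 h)
      have h4 : 2 ^ 2 ^ j + 1 - (2 ^ 2 ^ j - 1) = 2 := by omega
      rwa [h4] at this
    exact hl_ne ((Nat.prime_dvd_prime_iff_eq hl Nat.prime_two).mp h3)
  have hs2 : s * s ≠ 1 := by
    intro h
    apply hs1
    obtain ⟨k, rfl⟩ := hlodd
    rw [pow_succ, pow_mul, pow_two, h, one_pow, one_mul] at hpow
    exact hpow
  by_cases hN : (nrm s).card < Fintype.card H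
  · exfalso
    obtain ⟨m, hm0, hm1, hm2⟩ := class_equation hl hlodd hpow hs1 hcop hN
    have h1 : l ∣ 2 ^ m + 1 := by
      rw [← hm1, ← card_centralizer, ← hs]
      have hmem : s ∈ Subgroup.centralizer ({s} : Set H) := by
        rw [Subgroup.mem_centralizer_singleton_iff]
      exact Subgroup.orderOf_dvd_natCard _ hmem
    have h2 := fermat_le hl h1 hl2 hm0
    have h3 : 2 ^ (2 ^ j) ≤ 2 ^ m := Nat.pow_le_pow_right (by norm_num) h2
    have h4 := card_le (F := F)
    apply hne
    have h5 : Fintype.card (SpecialLinearGroup (Fin 2) F) ≤ Fintype.card H := by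
      rw [hm2]
      refine h4.trans ?_
      rw [hF]
      have e1 : 2 ^ 2 ^ j * 2 ^ 2 ^ j - 1 = (2 ^ 2 ^ j + 1) * (2 ^ 2 ^ j - 1) := by
        have h0 : 1 ≤ 2 ^ (2 ^ j) := Nat.one_le_two_pow
        obtain ⟨c, hc⟩ := Nat.exists_eq_add_of_le h0
        rw [hc]
        have : 1 + c - 1 = c := by omega
        rw [this]
        have : (1 + c) * (1 + c) = (1 + c + 1) * c + 1 := by ring
        omega
      rw [e1]
      calc (2 ^ 2 ^ j + 1) * (2 ^ 2 ^ j - 1) * 2 ^ 2 ^ j
          = 2 ^ 2 ^ j * (2 ^ 2 ^ j + 1) * (2 ^ 2 ^ j - 1) := by ring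
        _ ≤ 2 ^ m * (2 ^ m + 1) * (2 ^ m - 1) := by
          apply Nat.mul_le_mul
          · apply Nat.mul_le_mul h3
            omega
          · omega
    apply Subgroup.eq_top_of_card_eq
    rw [Nat.card_eq_fintype_card, Nat.card_eq_fintype_card]
    apply le_antisymm _ h5
    exact Fintype.card_le_of_injective _ Subtype.val_injective
  · refine ⟨Subgroup.centralizer ({s} : Set H), ?_, ?_⟩
    · intro a ha b hb
      rw [Subgroup.mem_centralizer_singleton_iff] at ha hb
      exact ca_subgroup H a s b hs1 ha (Commute.symm hb)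
    · have h1 : (nrm s).card = Fintype.card H :=
        le_antisymm (by rw [← Finset.card_univ]; exact Finset.card_le_univ _) (not_lt.mp hN)
      have h2 := Subgroup.index_mul_card (Subgroup.centralizer ({s} : Set H))
      rw [card_centralizer, Nat.card_eq_fintype_card, ← h1] at h2
      have h3 : 0 < (cent s).card := by
        have := (cent_odd hs2).2
        omega
      rcases card_nrm_odd hs2 with h | h
      · rw [h] at h2
        have : (Subgroup.centralizer ({s} : Set H)).index = 1 := by
          apply Nat.eq_of_mul_eq_mul_right h3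
          rw [h2, one_mul]
        omega
      · rw [h] at h2
        have : (Subgroup.centralizer ({s} : Set H)).index = 2 := Nat.eq_of_mul_eq_mul_right h3 h2
        omega

end Pool.Agent.H91.SL2
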