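import Pool.Agent.H91.SL2.Basic
import Pool.Agent.H91.SL2.Count

/-!
# Centralisers and normalisers in subgroups of `SL_2` in characteristic two
-/

set_option linter.unusedSectionVars false

namespace Pool.Agent.H91.SL2

open Matrix
open scoped Pointwise

section General

variable {Γ : Type*} [Group Γ] [Fintype Γ]

theorem mem_cent {x z : Γ} : z ∈ cent x ↔ Commute z x := by simp [cent]

theorem mem_nrm {x z : Γ} : z ∈ nrm x ↔ Commute (z * x * z⁻¹) x := by simp [nrm]

theorem mem_cls {x z : Γ} : z ∈ cls x ↔ z ≠ 1 ∧ ∃ g : Γ, Commute (g * z * g⁻¹) x := by simp [cls]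

theorem conj_eq_iff {g x : Γ} : g * x * g⁻¹ = x ↔ Commute g x := by
  rw [mul_inv_eq_iff_eq_mul]; exact Iff.rfl

theorem cls_symm {x y : Γ} (hx : x ≠ 1) (h : y ∈ cls x) : x ∈ cls y := by
  rw [mem_cls] at *
  obtain ⟨_, g, hg⟩ := h
  refine ⟨hx, g⁻¹, ?_⟩
  have h1 := commute_conj g⁻¹ hg
  have h2 : g⁻¹ * (g * y * g⁻¹) * g⁻¹⁻¹ = y := by group
  rw [h2] at h1
  exact h1.symm

theorem card_centralizer (x : Γ) : Nat.card ↥(Subgroup.centralizer ({x} : Set Γ)) = (cent x).card := by
  apply Nat.subtype_card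
  intro z
  rw [mem_cent]
  rw [Subgroup.mem_centralizer_singleton_iff]
  exact ⟨fun h => h.eq, fun h => h⟩

end General

variable {F : Type*} [Field F] [CharP F 2]

theorem coe_commute {H : Subgroup (SpecialLinearGroup (Fin 2) F)} {a b : H} :
    Commute a b ↔ Commute (a : SpecialLinearGroup (Fin 2) F) (b : SpecialLinearGroup (Fin 2) F) := by
  constructor
  · intro h
    exact congrArg Subtype.val h.eq
  · intro h
    exact Subtype.ext h.eq

theorem ca_subgroup (H : Subgroup (SpecialLinearGroup (Fin 2) F)) : CA H := by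
  intro x y z hy h1 h2
  rw [coe_commute] at *
  exact commute_trans (fun h => hy (Subtype.ext h)) h1 h2

variable {H : Subgroup (SpecialLinearGroup (Fin 2) F)} [Fintype H]

theorem tr_ne {x : H} (hx : x * x ≠ 1) : tr (x : SpecialLinearGroup (Fin 2) F) ≠ 0 := by
  intro h
  apply hx
  apply Subtype.ext
  exact (sq_eq_one_iff (x : SpecialLinearGroup (Fin 2) F)).mpr h

theorem ne_one_of_sq {x : H} (hx : x * x ≠ 1) : x ≠ 1 := by
  rintro rfl
  exact hx (by simp)

/-- Elements commuting with an involution are involutions or one. -/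
theorem sq_of_commute' {y z : H} (hy : y ≠ 1) (hy2 : y * y = 1) (h : Commute z y) : z * z = 1 := by
  apply Subtype.ext
  exact sq_of_commute (y := (y : SpecialLinearGroup (Fin 2) F)) (fun h => hy (Subtype.ext h)) (congrArg Subtype.val hy2)
    (coe_commute.mp h)

theorem eq_or_inv {x g : H} (hx : x * x ≠ 1) (h : Commute (g * x * g⁻¹) x) :
    g * x * g⁻¹ = x ∨ g * x * g⁻¹ = x⁻¹ := by
  rcases eq_or_eq_inv (tr_ne hx) (coe_commute.mp h)
    (tr_conj (g : SpecialLinearGroup (Fin 2) F) (x : SpecialLinearGroup (Fin 2) F)) with h | h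
  · left; exact Subtype.ext h
  · right; exact Subtype.ext h

theorem nrm_eq_cent {x : H} (hx : x * x ≠ 1) (hg : ∀ g : H, g * x * g⁻¹ ≠ x⁻¹) :
    nrm x = cent x := by
  ext g
  rw [mem_nrm, mem_cent]
  constructor
  · intro h
    rcases eq_or_inv hx h with h | h
    · exact conj_eq_iff.mp h
    · exact absurd h (hg g)
  · intro h
    rw [conj_eq_iff.mpr h]
    exact Commute.refl x

theorem card_nrm_two {x g0 : H} (hx : x * x ≠ 1) (hg0 : g0 * x * g0⁻¹ = x⁻¹) :
    (nrm x).card = 2 * (cent x).card := by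
  classical
  have h1 : nrm x = cent x ∪ (cent x).image (fun k => g0 * k) := by
    ext g
    rw [Finset.mem_union, Finset.mem_image, mem_nrm, mem_cent]
    constructor
    · intro h
      rcases eq_or_inv hx h with h | h
      · left
        exact conj_eq_iff.mp h
      · right
        refine ⟨g0⁻¹ * g, ?_, by group⟩
        rw [mem_cent]
        show g0⁻¹ * g * x = x * (g0⁻¹ * g)
        have e1 : g * x = x⁻¹ * g := by rw [← h]; group
        have e2 : g0⁻¹ * x⁻¹ = x * g0⁻¹ := by rw [← hg0]; group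
        rw [mul_assoc, e1, ← mul_assoc, e2, mul_assoc]
    · rintro (h | ⟨k, hk, rfl⟩)
      · rw [conj_eq_iff.mpr h]
        exact Commute.refl x
      · rw [mem_cent] at hk
        have : g0 * k * x * (g0 * k)⁻¹ = x⁻¹ := by
          rw [← hg0, mul_assoc g0 k x, hk.eq]; group
        rw [this]
        exact (Commute.refl x).inv_left
  have h2 : Disjoint (cent x) ((cent x).image (fun k => g0 * k)) := by
    rw [Finset.disjoint_left]
    intro z hz hz'
    rw [Finset.mem_image] at hz'
    obtain ⟨k, hk, rfl⟩ := hz'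
    rw [mem_cent] at hz hk
    apply hx
    have e1 : g0 * k * x * (g0 * k)⁻¹ = x⁻¹ := by
      rw [← hg0, mul_assoc g0 k x, hk.eq]; group
    have e2 : g0 * k * x * (g0 * k)⁻¹ = x := conj_eq_iff.mpr hz
    rw [e1] at e2
    calc x * x = x * x⁻¹ := by rw [e2]
      _ = 1 := mul_inv_cancel x
  rw [h1, Finset.card_union_of_disjoint h2, Finset.card_image_of_injective _
    (mul_right_injective g0)]
  ring

/-- The normaliser of the centraliser of a noninvolution: order `c` or `2 c`. -/
theorem card_nrm_odd {x : H} (hx : x * x ≠ 1) :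
    (nrm x).card = (cent x).card ∨ (nrm x).card = 2 * (cent x).card := by
  by_cases hg : ∃ g0 : H, g0 * x * g0⁻¹ = x⁻¹
  · right
    obtain ⟨g0, hg0⟩ := hg
    exact card_nrm_two hx hg0
  · left
    push Not at hg
    rw [nrm_eq_cent hx hg]

/-- An element inverting a noninvolution is an involution. -/
theorem inverting_sq {x g0 : H} (hx : x * x ≠ 1) (hg0 : g0 * x * g0⁻¹ = x⁻¹) :
    g0 ≠ 1 ∧ g0 * g0 = 1 := by
  constructor
  · rintro rfl
    apply hx
    have : x = x⁻¹ := by simpa using hg0
    calc x * x = x * x⁻¹ := by rw [← this]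
      _ = 1 := mul_inv_cancel x
  · by_contra h
    have h1 : Commute g0 (g0 * g0) := (Commute.refl g0).mul_right (Commute.refl g0)
    have h2 : Commute (g0 * g0) x := by
      rw [← conj_eq_iff]
      have e : g0 * g0 * x * (g0 * g0)⁻¹ = g0 * (g0 * x * g0⁻¹) * g0⁻¹ := by group
      rw [e, hg0]
      have e2 : g0 * x⁻¹ * g0⁻¹ = (g0 * x * g0⁻¹)⁻¹ := by group
      rw [e2, hg0, inv_inv]
    have h3 := ca_subgroup H g0 (g0 * g0) x h h1 h2
    rw [← conj_eq_iff, hg0] at h3
    apply hx
    calc x * x = x * x⁻¹ := by rw [h3]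
      _ = 1 := mul_inv_cancel x

/-- Centralisers of noninvolutions have odd order at least three. -/
theorem cent_odd {x : H} (hx : x * x ≠ 1) : Odd (cent x).card ∧ 3 ≤ (cent x).card := by
  have h1 : Odd (cent x).card := by
    rw [← Nat.not_even_iff_odd]
    intro he
    rw [← card_centralizer, even_iff_two_dvd] at he
    have : Fact (Nat.Prime 2) := ⟨Nat.prime_two⟩
    obtain ⟨z, hz⟩ := exists_prime_orderOf_dvd_card' 2 he
    have hz1 : (z : H) ≠ 1 := by
      intro h
      have : z = 1 := Subtype.ext h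
      rw [this, orderOf_one] at hz
      omega
    have hz2 : (z : H) * (z : H) = 1 := by
      have := pow_orderOf_eq_one z
      rw [hz, pow_two] at this
      exact congrArg Subtype.val this
    have hc : Commute x (z : H) := by
      have := z.2
      rw [Subgroup.mem_centralizer_singleton_iff] at this
      exact this.symm
    exact hx (sq_of_commute' hz1 hz2 hc)
  refine ⟨h1, ?_⟩
  have h2 : 1 < (cent x).card := by
    rw [Finset.one_lt_card]
    exact ⟨x, by rw [mem_cent]; exact Commute.refl x, 1, by rw [mem_cent]; exact Commute.one_left x, ne_one_of_sq hx⟩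
  obtain ⟨k, hk⟩ := h1
  omega

/-- The structure of the normaliser of the group of an involution. -/
theorem nrm_inv {y x : H} (hy : y ≠ 1) (hy2 : y * y = 1) (hx : x ∈ nrm y) (hxy : x ∉ cent y) :
    x * x ≠ 1 ∧ (∀ z : H, Commute z x → z ∈ nrm y) ∧
      (nrm y).card = (cent y).card * (cent x).card ∧ (cent x).card < (cent y).card := by
  classical
  rw [mem_nrm] at hx
  rw [mem_cent] at hxy
  have hy' : (y : SpecialLinearGroup (Fin 2) F) ≠ 1 := fun h => hy (Subtype.ext h)
  have hy2' : (y : SpecialLinearGroup (Fin 2) F) * y = 1 := congrArg Subtype.val hy2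
  obtain ⟨c, hc⟩ := exists_rel hy' hy2' (g := (x : SpecialLinearGroup (Fin 2) F)) (coe_commute.mp hx)
  have hc1 : c ≠ 1 := by
    rintro rfl
    exact hxy (coe_commute.mpr (rel_one_iff.mp hc))
  have hx2 : x * x ≠ 1 := by
    intro h
    exact rel_sq hy' hc1 hc (congrArg Subtype.val h)
  have hx1 : x ≠ 1 := ne_one_of_sq hx2
  -- relation for elements of the normaliser
  have relN : ∀ g : H, g ∈ nrm y → ∃ c', Rel (y : SpecialLinearGroup (Fin 2) F) g c' := by
    intro g hg
    rw [mem_nrm] at hg
    exact exists_rel hy' hy2' (coe_commute.mp hg)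
  have nOfRel : ∀ (g : H) (c' : F), Rel (y : SpecialLinearGroup (Fin 2) F) g c' → g ∈ nrm y := by
    intro g c' hg
    rw [mem_nrm, coe_commute]
    -- g y g⁻¹ = 1 + c' n commutes with y
    have h1 := rel_ne_zero hy' hg
    show (g : SpecialLinearGroup (Fin 2) F) * y * (g : SpecialLinearGroup (Fin 2) F)⁻¹ * y =
      y * ((g : SpecialLinearGroup (Fin 2) F) * y * (g : SpecialLinearGroup (Fin 2) F)⁻¹)
    have e : ((g : SpecialLinearGroup (Fin 2) F) : Matrix (Fin 2) (Fin 2) F) *
        (((g : SpecialLinearGroup (Fin 2) F)⁻¹ : SpecialLinearGroup (Fin 2) F) : Matrix (Fin 2) (Fin 2) F) = 1 :=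
      congrArg Subtype.val (mul_inv_cancel (g : SpecialLinearGroup (Fin 2) F))
    have e3 : (((g : SpecialLinearGroup (Fin 2) F) * y * (g : SpecialLinearGroup (Fin 2) F)⁻¹ :
        SpecialLinearGroup (Fin 2) F) : Matrix (Fin 2) (Fin 2) F) =
        1 + c' • nil (y : SpecialLinearGroup (Fin 2) F) := by
      have h2 : (((y : SpecialLinearGroup (Fin 2) F)) : Matrix (Fin 2) (Fin 2) F) =
        1 + nil (y : SpecialLinearGroup (Fin 2) F) := by unfold nil; abel
      have h3 : (((g : SpecialLinearGroup (Fin 2) F) * y * (g : SpecialLinearGroup (Fin 2) F)⁻¹ :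
        SpecialLinearGroup (Fin 2) F) : Matrix (Fin 2) (Fin 2) F) =
        ((g : SpecialLinearGroup (Fin 2) F) : Matrix (Fin 2) (Fin 2) F) *
        ((y : SpecialLinearGroup (Fin 2) F) : Matrix (Fin 2) (Fin 2) F) *
        (((g : SpecialLinearGroup (Fin 2) F)⁻¹ : SpecialLinearGroup (Fin 2) F) : Matrix (Fin 2) (Fin 2) F) := rfl
      rw [h3, h2, mul_add, mul_one, add_mul, e]
      unfold Rel at hg
      rw [hg, Matrix.smul_mul, mul_assoc, e, mul_one]
    apply Subtype.ext
    have h2 : (((y : SpecialLinearGroup (Fin 2) F)) : Matrix (Fin 2) (Fin 2) F) =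
        1 + nil (y : SpecialLinearGroup (Fin 2) F) := by unfold nil; abel
    show (((g : SpecialLinearGroup (Fin 2) F) * y * (g : SpecialLinearGroup (Fin 2) F)⁻¹ :
        SpecialLinearGroup (Fin 2) F) : Matrix (Fin 2) (Fin 2) F) *
        ((y : SpecialLinearGroup (Fin 2) F) : Matrix (Fin 2) (Fin 2) F) =
        ((y : SpecialLinearGroup (Fin 2) F) : Matrix (Fin 2) (Fin 2) F) *
        (((g : SpecialLinearGroup (Fin 2) F) * y * (g : SpecialLinearGroup (Fin 2) F)⁻¹ :
        SpecialLinearGroup (Fin 2) F) : Matrix (Fin 2) (Fin 2) F)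
    rw [e3, h2]
    simp only [mul_add, add_mul, one_mul, mul_one, Matrix.smul_mul, Matrix.mul_smul]
    abel
  have hcentN : ∀ z : H, Commute z x → z ∈ nrm y := by
    intro z hz
    obtain ⟨c', hc'⟩ := rel_of_commute hy' hy2' hc1 hc (coe_commute.mp hz)
    exact nOfRel z c' hc'
  -- trivial intersection
  have htriv : ∀ z : H, Commute z x → Commute z y → z = 1 := by
    intro z h1 h2
    by_contra hz
    exact hxy (ca_subgroup H x z y hz h1.symm h2)
  -- the commutator map on the centraliser of y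
  have hinjφ : Set.InjOn (fun u : H => x⁻¹ * u * x * u⁻¹) (cent y : Set H) := by
    intro u hu v hv huv
    have hu' : Commute u y := by simpa [mem_cent] using hu
    have hv' : Commute v y := by simpa [mem_cent] using hv
    have h1 : u * x * u⁻¹ = v * x * v⁻¹ := by
      have := congrArg (fun w => x * w) huv
      simp only at this
      calc u * x * u⁻¹ = x * (x⁻¹ * u * x * u⁻¹) := by group
        _ = x * (x⁻¹ * v * x * v⁻¹) := this
        _ = v * x * v⁻¹ := by group
    have h2 : Commute (v⁻¹ * u) x := by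
      rw [← conj_eq_iff]
      calc v⁻¹ * u * x * (v⁻¹ * u)⁻¹ = v⁻¹ * (u * x * u⁻¹) * v := by group
        _ = v⁻¹ * (v * x * v⁻¹) * v := by rw [h1]
        _ = x := by group
    have h3 : Commute (v⁻¹ * u) y := hv'.inv_left.mul_left hu'
    have := htriv _ h2 h3
    exact (inv_mul_eq_one.mp this).symm
  -- values of the commutator map
  have hval : ∀ g : H, g ∈ nrm y → Commute (x⁻¹ * g * x * g⁻¹) y := by
    intro g hg
    obtain ⟨c', hc'⟩ := relN g hg
    have h1 := rel_mul (rel_mul (rel_mul (rel_inv hy' hc) hc') hc) (rel_inv hy' hc')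
    have h2 : c⁻¹ * c' * c * c'⁻¹ = 1 := by
      have a := rel_ne_zero hy' hc
      have b := rel_ne_zero hy' hc'
      field_simp
    rw [h2] at h1
    rw [coe_commute]
    exact rel_one_iff.mp h1
  have hmaps : Set.MapsTo (fun u : H => x⁻¹ * u * x * u⁻¹) (cent y : Set H) (cent y : Set H) := by
    intro u hu
    have hu' : Commute u y := by simpa [mem_cent] using hu
    have : u ∈ nrm y := by
      rw [mem_nrm, conj_eq_iff.mpr hu']
      exact Commute.refl y
    simpa [mem_cent] using hval u this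
  have hsurj : Set.SurjOn (fun u : H => x⁻¹ * u * x * u⁻¹) (cent y : Set H) (cent y : Set H) :=
    Finset.surjOn_of_injOn_of_card_le _ hmaps hinjφ le_rfl
  -- product decomposition
  have hprod : (nrm y).card = (cent y).card * (cent x).card := by
    rw [← Finset.card_product]
    symm
    apply Finset.card_bij (fun (p : H × H) _ => p.1 * p.2)
    · intro p hp
      rw [Finset.mem_product, mem_cent, mem_cent] at hp
      obtain ⟨c1, h1⟩ := relN p.2 (hcentN p.2 hp.2)
      have h2 : Rel (y : SpecialLinearGroup (Fin 2) F) p.1 1 := rel_one_iff.mpr (coe_commute.mp hp.1)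
      exact nOfRel (p.1 * p.2) _ (rel_mul h2 h1)
    · intro p hp p' hp' h
      rw [Finset.mem_product, mem_cent, mem_cent] at hp hp'
      have h0 : p'.1⁻¹ * p.1 = p'.2 * p.2⁻¹ := by
        have h' : p.1 * p.2 = p'.1 * p'.2 := h
        calc p'.1⁻¹ * p.1 = p'.1⁻¹ * (p.1 * p.2) * p.2⁻¹ := by group
          _ = p'.1⁻¹ * (p'.1 * p'.2) * p.2⁻¹ := by rw [h']
          _ = p'.2 * p.2⁻¹ := by group
      have h1 : Commute (p'.1⁻¹ * p.1) y := hp'.1.inv_left.mul_left hp.1
      have h2 : Commute (p'.1⁻¹ * p.1) x := by rw [h0]; exact hp'.2.mul_left hp.2.inv_left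
      have h3 := htriv _ h2 h1
      have h4 : p.1 = p'.1 := (inv_mul_eq_one.mp h3).symm
      have h5 : p.2 = p'.2 := by
        have h' : p.1 * p.2 = p'.1 * p'.2 := h
        rw [h4] at h'
        exact mul_left_cancel h'
      exact Prod.ext h4 h5
    · intro g hg
      have h1 := hval g hg
      have h2 : (x⁻¹ * g * x * g⁻¹ : H) ∈ (cent y : Set H) := by simpa [mem_cent] using h1
      obtain ⟨u, hu, huv⟩ := hsurj h2
      have hu' : Commute u y := by simpa [mem_cent] using hu
      refine ⟨(u, u⁻¹ * g), ?_, by simp⟩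
      rw [Finset.mem_product, mem_cent, mem_cent]
      refine ⟨hu', ?_⟩
      have h3 : u * x * u⁻¹ = g * x * g⁻¹ := by
        have := congrArg (fun w => x * w) huv
        simp only at this
        calc u * x * u⁻¹ = x * (x⁻¹ * u * x * u⁻¹) := by group
          _ = x * (x⁻¹ * g * x * g⁻¹) := this
          _ = g * x * g⁻¹ := by group
      show Commute (u⁻¹ * g) x
      rw [← conj_eq_iff]
      calc u⁻¹ * g * x * (u⁻¹ * g)⁻¹ = u⁻¹ * (g * x * g⁻¹) * u := by group
        _ = u⁻¹ * (u * x * u⁻¹) * u := by rw [h3]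
        _ = x := by group
  have hlt : (cent x).card < (cent y).card := by
    have h1 : (cent x).card ≤ ((cent y).erase 1).card := by
      apply Finset.card_le_card_of_injOn (fun k => k * y * k⁻¹)
      · intro k hk
        have hk' : Commute k x := by simpa [mem_cent] using hk
        have := hcentN k hk'
        rw [mem_nrm] at this
        rw [Finset.mem_coe, Finset.mem_erase, mem_cent]
        exact ⟨conj_ne_one hy, this⟩
      · intro k hk k' hk' h
        have hk1 : Commute k x := by simpa [mem_cent] using hk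
        have hk2 : Commute k' x := by simpa [mem_cent] using hk'
        have h' : k * y * k⁻¹ = k' * y * k'⁻¹ := h
        have h2 : Commute (k'⁻¹ * k) y := by
          rw [← conj_eq_iff]
          calc k'⁻¹ * k * y * (k'⁻¹ * k)⁻¹ = k'⁻¹ * (k * y * k⁻¹) * k' := by group
            _ = k'⁻¹ * (k' * y * k'⁻¹) * k' := by rw [h']
            _ = y := by group
        have h3 : Commute (k'⁻¹ * k) x := hk2.inv_left.mul_left hk1
        have := htriv _ h3 h2
        exact (inv_mul_eq_one.mp this).symm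
    have h2 : ((cent y).erase 1).card = (cent y).card - 1 := by
      rw [Finset.card_erase_of_mem]
      rw [mem_cent]; exact Commute.one_left y
    have h3 : 0 < (cent y).card := Finset.card_pos.mpr ⟨1, by rw [mem_cent]; exact Commute.one_left y⟩
    omega
  exact ⟨hx2, hcentN, hprod, hlt⟩

/-- Two involutions are conjugate up to commuting. -/
theorem inv_mem_cls {y z : H} (hy : y ≠ 1) (hy2 : y * y = 1) (hz : z ≠ 1) (hz2 : z * z = 1) :
    z ∈ cls y := by
  classical
  have : Fact (Nat.Prime 2) := ⟨Nat.prime_two⟩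
  have hP : ∀ w : H, w ≠ 1 → w * w = 1 → IsPGroup 2 (Subgroup.zpowers w) := by
    intro w hw hw2
    apply IsPGroup.of_card (n := 1)
    rw [Nat.card_zpowers, pow_one]
    exact orderOf_eq_prime (by rw [pow_two]; exact hw2) hw
  obtain ⟨R, hR⟩ := (hP z hz hz2).exists_le_sylow
  obtain ⟨R', hR'⟩ := (hP y hy hy2).exists_le_sylow
  obtain ⟨g, hg⟩ := MulAction.exists_smul_eq H R R'
  have hzR : z ∈ R := hR (Subgroup.mem_zpowers z)
  have hyR : y ∈ R' := hR' (Subgroup.mem_zpowers y)
  have hgz : g * z * g⁻¹ ∈ R' := by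
    rw [← hg]
    have h3 : (MulAut.conj g) • z ∈ (MulAut.conj g) • (R : Subgroup H) :=
      Subgroup.smul_mem_pointwise_smul z (MulAut.conj g) (R : Subgroup H) hzR
    exact h3
  have hne : Nontrivial R' := by
    refine ⟨⟨⟨y, hyR⟩, 1, ?_⟩⟩
    intro h
    exact hy (congrArg Subtype.val h)
  have hc := IsPGroup.center_nontrivial R'.isPGroup'
  obtain ⟨⟨c, hcc⟩, hc1⟩ := exists_ne (1 : Subgroup.center R')
  have hc1' : (c : H) ≠ 1 := by
    intro h
    apply hc1
    apply Subtype.ext
    exact Subtype.ext h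
  rw [mem_cls]
  refine ⟨hz, g, ?_⟩
  rw [Subgroup.mem_center_iff] at hcc
  have h1 : Commute (g * z * g⁻¹) (c : H) := congrArg Subtype.val (hcc ⟨_, hgz⟩)
  have h2 : Commute y (c : H) := congrArg Subtype.val (hcc ⟨y, hyR⟩)
  exact ca_subgroup H _ _ _ hc1' h1 h2.symm

/-- The class of an element of order prime to `|F| - 1` contains no element of a Borel group. -/
theorem not_mem_cls_of_borel [Fintype F] {s y x : H} {l : ℕ} (hl2 : Odd l) (hs : s ^ l = 1) (hs1 : s ≠ 1)
    (hco : Nat.Coprime l (Fintype.card F - 1)) (hy : y ≠ 1) (hy2 : y * y = 1)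
    (hx : x ∈ nrm y) : x ∉ cls s := by
  intro hcl
  rw [mem_cls] at hcl
  obtain ⟨hx1, g, hg⟩ := hcl
  rw [mem_nrm] at hx
  set y' := g * y * g⁻¹ with hy'
  set x' := g * x * g⁻¹ with hx'
  have hy'1 : y' ≠ 1 := conj_ne_one hy
  have hy'2 : y' * y' = 1 := by
    have : g * y * g⁻¹ * (g * y * g⁻¹) = g * (y * y) * g⁻¹ := by group
    rw [hy', this, hy2]; group
  have hx'n : Commute (x' * y' * x'⁻¹) y' := by
    have h1 := commute_conj g hx
    have h2 : g * (x * y * x⁻¹) * g⁻¹ = x' * y' * x'⁻¹ := by rw [hx', hy']; group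
    rwa [h2] at h1
  have key : ∀ {c : F}, Rel (y' : SpecialLinearGroup (Fin 2) F) s c → False := by
    intro c hc
    have hy'1' : (y' : SpecialLinearGroup (Fin 2) F) ≠ 1 := fun h => hy'1 (Subtype.ext h)
    have h1 : Commute (s : SpecialLinearGroup (Fin 2) F) y' := by
      apply commute_of_rel hy'1' hc (l := l) _ hco
      exact congrArg Subtype.val hs
    have h2 := sq_of_commute' hy'1 hy'2 (coe_commute.mpr h1)
    apply hs1
    obtain ⟨k, rfl⟩ := hl2
    rw [pow_succ, pow_mul, pow_two, h2, one_pow, one_mul] at hs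
    exact hs
  have hy'1' : (y' : SpecialLinearGroup (Fin 2) F) ≠ 1 := fun h => hy'1 (Subtype.ext h)
  have hy'2' : (y' : SpecialLinearGroup (Fin 2) F) * y' = 1 := congrArg Subtype.val hy'2
  by_cases hxc : Commute x' y'
  · -- then s commutes with y'
    have h1 : Commute s y' := ca_subgroup H s x' y' (conj_ne_one hx1) hg.symm hxc
    exact key (rel_one_iff.mpr (coe_commute.mp h1))
  · obtain ⟨c, hc⟩ := exists_rel hy'1' hy'2' (g := (x' : SpecialLinearGroup (Fin 2) F)) (coe_commute.mp hx'n)
    have hc1 : c ≠ 1 := by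
      rintro rfl
      exact hxc (coe_commute.mpr (rel_one_iff.mp hc))
    obtain ⟨c', hc'⟩ := rel_of_commute hy'1' hy'2' hc1 hc (coe_commute.mp hg.symm)
    exact key hc'

end Pool.Agent.H91.SL2
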